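import Pool.Agent.Lib.NFH.Defs2
import Pool.Agent.Lib.NFH.Iso

/-!
MP_44a56e_nt (weighted), module CountT (about 150 lines): from kernels to pairs (field, tuple).

PROOF of `count_tuples` (compare `NFH.count_fields` and `NFH.iso_of_ker`). `κ P = kerI P.2`. The image of `Sf` under `κ` has at most `d1` elements (otherwise choose `d1 + 1` elements of `Sf` with different kernels, contradiction to `hd`). Each fibre has at most `n` elements:
let `J` be a kernel, `P ∈ Sf` with `κ P = J`, `f ∈ ℤ[t]` nonzero of degree `n` with `f (P.2 0) = 0` (the minimal polynomial over `ℤ`; its degree is `n` by `hprim`, `hN`). `f(Y_0) ∈ J`, so `f (Q.2 0) = 0` in `ℂ` for every `Q` in the fibre: at most `n` values of the complex number `Q.2 0`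
(`Polynomial.card_roots`). And `Q` is determined by this number `z`: `Q.1 = ℚ(z)` (`hprim`), and `Q.2 j = g_j (z)` for a rational polynomial `g_j` which does not depend on `Q`: `P.2 j = g_j (P.2 0)` in `P.1`, i.e. `N X_j - (N g_j)(X_0) ∈ J` with `N` a common denominator.
So `Sf` is finite with at most `d1 * n` elements.
-/

set_option autoImplicit false

open MvPolynomial Module NumberField NFH

namespace NFW

private theorem ct_aeval {r : ℕ} {A : Type*} [CommRing A] (x : Fin (r + 1) → A)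
    (P : Polynomial ℤ) :
    aeval x (Polynomial.aeval (X 0 : PZ (r + 1)) P) = Polynomial.aeval (x 0) P := by
  rw [← Polynomial.aeval_algHom_apply, aeval_X]

/-- Every element of `ℚ(z)` is an integer polynomial in `z` up to an integer factor. -/
private theorem ct_rep {K : Type} [Field K] [Algebra ℚ K] (z : K) (hint : IsIntegral ℚ z)
    (hz : IntermediateField.adjoin ℚ {z} = ⊤) (w : K) :
    ∃ (N : ℤ) (G : Polynomial ℤ), N ≠ 0 ∧ (N : K) * w = Polynomial.aeval z G := by
  have h1 : w ∈ (IntermediateField.adjoin ℚ {z}).toSubalgebra := by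
    rw [hz]; exact IntermediateField.mem_top
  rw [IntermediateField.adjoin_simple_toSubalgebra_of_isAlgebraic hint.isAlgebraic,
    Algebra.adjoin_singleton_eq_range_aeval] at h1
  obtain ⟨g, rfl⟩ := h1
  obtain ⟨b, hbm, hb⟩ := IsLocalization.integerNormalization_spec (nonZeroDivisors ℤ) g
  refine ⟨b, IsLocalization.integerNormalization (nonZeroDivisors ℤ) g,
    nonZeroDivisors.ne_zero hbm, ?_⟩
  have h2 := congrArg (Polynomial.aeval z) hb
  rw [Polynomial.aeval_map_algebraMap] at h2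
  rw [h2]
  simp

private theorem ct_gen (K : IntermediateField ℚ ℂ) (z : K)
    (hz : IntermediateField.adjoin ℚ {z} = ⊤) :
    IntermediateField.adjoin ℚ {(z : ℂ)} = K := by
  have h1 := IntermediateField.lift_adjoin_simple ℚ K z
  rw [← h1]
  have h0 : K.algebra' = DivisionRing.toRatAlgebra := Subsingleton.elim _ _
  have h2 : @IntermediateField.adjoin ℚ _ K _ (IntermediateField.algebra' K) {z} = ⊤ := by
    rw [h0]
    exact hz
  rw [h2, IntermediateField.lift_top]

private theorem ct_inj {r : ℕ} (K L : IntermediateField ℚ ℂ)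
    (x : Fin (r + 1) → 𝓞 K) (y : Fin (r + 1) → 𝓞 L)
    (hx : IntermediateField.adjoin ℚ {((x 0 : 𝓞 K) : K)} = ⊤)
    (hy : IntermediateField.adjoin ℚ {((y 0 : 𝓞 L) : L)} = ⊤)
    (h : kerI x = kerI y) (h0 : (((x 0 : 𝓞 K) : K) : ℂ) = (((y 0 : 𝓞 L) : L) : ℂ)) :
    (⟨K, x⟩ : Σ K : IntermediateField ℚ ℂ, (Fin (r + 1) → 𝓞 K)) = ⟨L, y⟩ := by
  have e1 : IntermediateField.adjoin ℚ {(((x 0 : 𝓞 K) : K) : ℂ)} = K := ct_gen K _ hx
  have e2 : IntermediateField.adjoin ℚ {(((y 0 : 𝓞 L) : L) : ℂ)} = L := ct_gen L _ hy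
  obtain rfl : K = L := by rw [← e1, ← e2, h0]
  have h00 : x 0 = y 0 := by
    apply RingOfIntegers.coe_injective
    exact Subtype.val_injective h0
  have hint : IsIntegral ℚ ((x 0 : 𝓞 K) : K) :=
    IsIntegral.tower_top (RingOfIntegers.isIntegral_coe (x 0))
  have hxy : x = y := by
    funext j
    obtain ⟨N, G, hN, hG⟩ := ct_rep ((x 0 : 𝓞 K) : K) hint hx ((x j : 𝓞 K) : K)
    have hG' : (N : 𝓞 K) * x j = Polynomial.aeval (x 0) G := by
      apply RingOfIntegers.coe_injective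
      rw [map_mul, map_intCast]
      show (N : K) * ((x j : 𝓞 K) : K) = algebraMap (𝓞 K) K _
      rw [hG, ← Polynomial.aeval_algebraMap_apply]
    have h1 : (C N * X j - Polynomial.aeval (X 0 : PZ (r + 1)) G : PZ (r + 1)) ∈ kerI x := by
      rw [RingHom.mem_ker]
      show aeval x (C N * X j - Polynomial.aeval (X 0 : PZ (r + 1)) G) = 0
      rw [map_sub, map_mul, aeval_X, ct_aeval, aeval_C, eq_intCast, hG', sub_self]
    rw [h, RingHom.mem_ker] at h1
    have h2 : aeval y (C N * X j - Polynomial.aeval (X 0 : PZ (r + 1)) G) = 0 := h1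
    rw [map_sub, map_mul, aeval_X, ct_aeval, aeval_C, eq_intCast, ← h00, ← hG', ← mul_sub] at h2
    have hN' : (N : 𝓞 K) ≠ 0 := by
      intro h3
      apply hN
      have h4 : algebraMap (𝓞 K) K (N : 𝓞 K) = 0 := by rw [h3, map_zero]
      rw [map_intCast] at h4
      exact_mod_cast h4
    rcases mul_eq_zero.1 h2 with h3 | h3
    · exact absurd h3 hN'
    · exact (sub_eq_zero.1 h3).symm
  rw [hxy]

theorem count_tuples (n r d1 : ℕ) (h1 : 1 ≤ n)
    (Sf : Set (Σ K : IntermediateField ℚ ℂ, (Fin (r + 1) → 𝓞 K)))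
    (hN : ∀ P ∈ Sf, finrank ℚ P.1 = n)
    (hprim : ∀ P ∈ Sf, IntermediateField.adjoin ℚ {((P.2 0 : 𝓞 P.1) : P.1)} = ⊤)
    (hd : ∀ ι : Finset (Σ K : IntermediateField ℚ ℂ, (Fin (r + 1) → 𝓞 K)),
      (∀ P ∈ ι, P ∈ Sf) → (∀ P ∈ ι, ∀ Q ∈ ι, kerI P.2 = kerI Q.2 → P = Q) → ι.card ≤ d1) :
    Sf.Finite ∧ Sf.ncard ≤ d1 * n := by
  classical
  let κ : (Σ K : IntermediateField ℚ ℂ, (Fin (r + 1) → 𝓞 K)) → Ideal (PZ (r + 1)) :=
    fun P => kerI P.2
  -- finite sets of kernels
  have hA : ∀ T : Finset (Ideal (PZ (r + 1))), (T : Set (Ideal (PZ (r + 1)))) ⊆ κ '' Sf →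
      T.card ≤ d1 := by
    intro T hT
    choose! g hg using hT
    have hginj : Set.InjOn g T := by
      intro I hI I' hI' h
      rw [← (hg hI).2, ← (hg hI').2, h]
    rw [← Finset.card_image_of_injOn hginj]
    refine hd _ ?_ ?_
    · intro K hK
      obtain ⟨I, hI, rfl⟩ := Finset.mem_image.1 hK
      exact (hg hI).1
    · intro K hK L hL h
      obtain ⟨I, hI, rfl⟩ := Finset.mem_image.1 hK
      obtain ⟨I', hI', rfl⟩ := Finset.mem_image.1 hL
      have h2 : I = I' := by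
        rw [← (hg hI).2, ← (hg hI').2]
        exact h
      rw [h2]
  have hfin : (κ '' Sf).Finite := by
    by_contra hinf
    obtain ⟨T, hT, hc⟩ := Set.Infinite.exists_subset_card_eq hinf (d1 + 1)
    have h2 := hA T hT
    omega
  -- fibres
  have hB : ∀ P ∈ Sf, {Q | Q ∈ Sf ∧ κ Q = κ P}.Finite ∧ {Q | Q ∈ Sf ∧ κ Q = κ P}.ncard ≤ n := by
    intro P hP
    set z : (Σ K : IntermediateField ℚ ℂ, (Fin (r + 1) → 𝓞 K)) → ℂ :=
      fun Q => (((Q.2 0 : 𝓞 Q.1) : Q.1) : ℂ) with hz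
    have hiz : IsIntegral ℤ ((P.2 0 : 𝓞 P.1) : P.1) := RingOfIntegers.isIntegral_coe (P.2 0)
    have hiq : IsIntegral ℚ ((P.2 0 : 𝓞 P.1) : P.1) := IsIntegral.tower_top hiz
    set f : Polynomial ℤ := minpoly ℤ ((P.2 0 : 𝓞 P.1) : P.1) with hf
    have hf0 : f.Monic := minpoly.monic hiz
    have hfdeg : f.natDegree = n := by
      have h2 : (minpoly ℚ ((P.2 0 : 𝓞 P.1) : P.1)).natDegree = f.natDegree := by
        rw [minpoly.isIntegrallyClosed_eq_field_fractions' ℚ hiz,
          hf0.natDegree_map]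
      rw [← h2, ← IntermediateField.adjoin.finrank hiq, hprim P hP,
        IntermediateField.finrank_top', hN P hP]
    have hfP : Polynomial.aeval (P.2 0) f = 0 := by
      apply RingOfIntegers.coe_injective
      show algebraMap (𝓞 P.1) P.1 (Polynomial.aeval (P.2 0) f) = algebraMap (𝓞 P.1) P.1 0
      rw [← Polynomial.aeval_algebraMap_apply, map_zero]
      exact minpoly.aeval ℤ ((P.2 0 : 𝓞 P.1) : P.1)
    have hmaps : z '' {Q | Q ∈ Sf ∧ κ Q = κ P} ⊆
        ((f.map (algebraMap ℤ ℂ)).roots.toFinset : Set ℂ) := by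
      rintro _ ⟨Q, ⟨hQ, hQP⟩, rfl⟩
      have h3 : Polynomial.aeval (X 0 : PZ (r + 1)) f ∈ κ P := by
        show _ ∈ kerI P.2
        rw [RingHom.mem_ker]
        show aeval P.2 (Polynomial.aeval (X 0 : PZ (r + 1)) f) = 0
        rw [ct_aeval, hfP]
      rw [← hQP] at h3
      have h4 : aeval Q.2 (Polynomial.aeval (X 0 : PZ (r + 1)) f) = 0 := by
        have := (RingHom.mem_ker (f := (aeval Q.2 : PZ (r + 1) →ₐ[ℤ] 𝓞 Q.1))).1 h3
        exact this
      rw [ct_aeval] at h4
      have h5 : Polynomial.aeval (z Q) f = 0 := by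
        have h6 := congrArg (algebraMap (𝓞 Q.1) Q.1) h4
        rw [← Polynomial.aeval_algebraMap_apply, map_zero] at h6
        have h7 := congrArg (algebraMap Q.1 ℂ) h6
        rw [← Polynomial.aeval_algebraMap_apply, map_zero] at h7
        exact h7
      rw [Finset.mem_coe, Multiset.mem_toFinset, Polynomial.mem_roots']
      refine ⟨(hf0.map _).ne_zero, ?_⟩
      rw [Polynomial.IsRoot.def, Polynomial.eval_map_algebraMap]
      exact h5
    have hinj : Set.InjOn z {Q | Q ∈ Sf ∧ κ Q = κ P} := by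
      rintro ⟨K, x⟩ ⟨hK, hKP⟩ ⟨L, y⟩ ⟨hL, hLP⟩ hzz
      exact ct_inj K L x y (hprim _ hK) (hprim _ hL) (hKP.trans hLP.symm) hzz
    have hfz : (z '' {Q | Q ∈ Sf ∧ κ Q = κ P}).Finite := (Finset.finite_toSet _).subset hmaps
    have hff : {Q | Q ∈ Sf ∧ κ Q = κ P}.Finite := Set.Finite.of_finite_image hfz hinj
    refine ⟨hff, ?_⟩
    rw [← hinj.ncard_image]
    calc (z '' {Q | Q ∈ Sf ∧ κ Q = κ P}).ncard
        ≤ ((f.map (algebraMap ℤ ℂ)).roots.toFinset : Set ℂ).ncard :=
          Set.ncard_le_ncard hmaps (Finset.finite_toSet _)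
      _ = (f.map (algebraMap ℤ ℂ)).roots.toFinset.card := Set.ncard_coe_finset _
      _ ≤ Multiset.card (f.map (algebraMap ℤ ℂ)).roots := Multiset.toFinset_card_le _
      _ ≤ (f.map (algebraMap ℤ ℂ)).natDegree := Polynomial.card_roots' _
      _ = n := by rw [hf0.natDegree_map, hfdeg]
  have hSf : Sf.Finite := by
    have h2 : Sf = ⋃ I ∈ κ '' Sf, {L | L ∈ Sf ∧ κ L = I} := by
      ext L
      simp only [Set.mem_iUnion, Set.mem_ofPred_eq, exists_prop]
      constructor
      · intro hL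
        exact ⟨κ L, ⟨L, hL, rfl⟩, hL, rfl⟩
      · rintro ⟨_, _, hL, _⟩
        exact hL
    rw [h2]
    refine hfin.biUnion ?_
    rintro _ ⟨K, hK, rfl⟩
    exact (hB K hK).1
  refine ⟨hSf, ?_⟩
  rw [Set.ncard_eq_toFinset_card Sf hSf]
  have h3 : hSf.toFinset.card ≤ n * (hSf.toFinset.image κ).card := by
    refine Finset.card_le_mul_card_image _ n ?_
    intro I hI
    obtain ⟨K, hK, rfl⟩ := Finset.mem_image.1 hI
    have hK' : K ∈ Sf := hSf.mem_toFinset.1 hK
    refine le_trans (le_of_eq ?_) (hB K hK').2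
    rw [← Set.ncard_coe_finset]
    congr 1
    ext L
    simp
  have h4 : (hSf.toFinset.image κ).card ≤ d1 := by
    refine hA _ ?_
    intro I hI
    obtain ⟨K, hK, rfl⟩ := Finset.mem_image.1 (Finset.mem_coe.1 hI)
    exact ⟨K, hSf.mem_toFinset.1 hK, rfl⟩
  calc hSf.toFinset.card ≤ n * (hSf.toFinset.image κ).card := h3
    _ ≤ n * d1 := Nat.mul_le_mul le_rfl h4
    _ = d1 * n := mul_comm _ _

end NFW
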