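import Pool.Agent.Lib.NFW.Defs
import Pool.Agent.Lib.NFH.Grid
import Pool.Agent.Lib.NFH.GramDet
import Pool.Agent.Lib.NFH.JetB

/-!
MP_44a56e_nt (weighted), module TupleW (about 260 lines): many tuples.

PROOF. As `NFU.tupleU` (Lib/NFU/TupleU.lean, copy it; its auxiliary statements are private): `G1 * G2` is a nonzero polynomial in the `n (r+1)` variables `c_jl` over `ℂ`, of total degree `≤ Z := dz n m r k ≥ 1`, such that for natural numbers `c_jl` with `(G1 G2)(c) ≠ 0` the tuple `x_j = ∑_l c_jl w_l` has `det1 ≠ 0`, `det2 ≠ 0`.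
`L = 2 (n (r+1)) Z ≥ 2`. Let `c_jl` run through `{0 .. L ⌈W/l_l⌉ - 1}` (`q_l = L ⌈W/l_l⌉ ≥ L` values, `W/l_l ≥ 1`). Schwartz-Zippel (`MvPolynomial.schwartz_zippel_sum_degreeOf`: the proportion of zeros is `≤ ∑_{(j,l)} degreeOf/q_l ≤ n(r+1) Z/L = 1/2`): at least half of the `∏_l q_l^(r+1)` points are good.
`‖φ x_j‖ ≤ ∑_l q_l l_l ≤ ∑_l L (W/l_l + 1) l_l ≤ n L 2 W = sw n m r k * W`. The map `c ↦ x` is injective (`w` independent). The number of good tuples is `≥ (1/2) ∏_l (L W/l_l)^(r+1) ≥ (W^n/∏ l_l)^(r+1) * (L^(n(r+1))/2)` and `L^(n(r+1)) ≥ L ≥ 2`.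
-/

set_option autoImplicit false

open MvPolynomial Module NumberField NFH NFU

namespace NFW

private theorem tup_jetdeg {r : ℕ} {τ : Type*} (A : Fin r → MvPolynomial τ ℂ)
    (hA : ∀ j, (A j).totalDegree ≤ 1) (α β : Fin r →₀ ℕ) :
    (jet A α β).totalDegree ≤ β.degree := by
  rw [jet_eq, Finsupp.degree_eq_sum]
  refine (totalDegree_finsetProd _ _).trans (Finset.sum_le_sum fun j _ => ?_)
  refine (totalDegree_mul _ _).trans ?_
  have h1 : (((β j).choose (α j) : ℕ) : MvPolynomial τ ℂ).totalDegree = 0 := by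
    rw [← map_natCast (C : ℂ →+* MvPolynomial τ ℂ), totalDegree_C]
  rw [h1, zero_add]
  refine (totalDegree_pow _ _).trans ?_
  calc (β j - α j) * (A j).totalDegree ≤ (β j - α j) * 1 := Nat.mul_le_mul_left _ (hA j)
    _ ≤ β j := by omega

private theorem tup_detdeg {ι τ : Type*} [Fintype ι] [DecidableEq ι]
    (M : Matrix ι ι (MvPolynomial τ ℂ)) (D : ℕ) (hM : ∀ i j, (M i j).totalDegree ≤ D) :
    M.det.totalDegree ≤ Fintype.card ι * D := by
  rw [Matrix.det_apply]
  refine totalDegree_finsetSum_le fun σ _ => ?_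
  have h1 : (Equiv.Perm.sign σ • ∏ i, M (σ i) i).totalDegree ≤
      (∏ i, M (σ i) i).totalDegree := by
    rcases Int.units_eq_one_or (Equiv.Perm.sign σ) with h | h
    · rw [h, one_smul]
    · rw [h, Units.neg_smul, one_smul, totalDegree_neg]
  refine h1.trans ((totalDegree_finsetProd _ _).trans ?_)
  refine (Finset.sum_le_sum fun i _ => hM (σ i) i).trans ?_
  rw [Finset.sum_const, smul_eq_mul, Finset.card_univ]

/-- the embedding matrix of independent integers is invertible -/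
private theorem tup_inv (K : Type) [Field K] [NumberField K] (n : ℕ) (hK : finrank ℚ K = n)
    (w : Fin n → 𝓞 K) (hw : LinearIndependent ℚ (fun i => (w i : K)))
    (σ : Fin n ≃ (K →+* ℂ)) :
    (Matrix.of fun t l : Fin n => σ t (w l : K)).det ≠ 0 := by
  let e : Fin n ≃ (K →ₐ[ℚ] ℂ) := σ.trans (RingHom.equivRatAlgHom K ℂ)
  rcases Nat.eq_zero_or_pos n with h0 | hpos
  · subst h0
    rw [Matrix.det_isEmpty]
    exact one_ne_zero
  have : Nonempty (Fin n) := ⟨⟨0, hpos⟩⟩
  let b : Basis (Fin n) ℚ K :=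
    basisOfLinearIndependentOfCardEqFinrank hw (by rw [Fintype.card_fin, hK])
  have hb : ∀ l, b l = (w l : K) := fun l => by
    rw [coe_basisOfLinearIndependentOfCardEqFinrank]
  have h1 := Algebra.discr_eq_det_embeddingsMatrixReindex_pow_two ℚ ℂ b e
  have h2 : Algebra.discr ℚ b ≠ 0 := Algebra.discr_not_zero_of_basis ℚ b
  have h3 : (Algebra.embeddingsMatrixReindex ℚ ℂ b e).det ≠ 0 := by
    intro h0
    rw [h0, zero_pow two_ne_zero] at h1
    exact h2 ((algebraMap ℚ ℂ).injective (h1.trans (map_zero _).symm))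
  have h4 : Algebra.embeddingsMatrixReindex ℚ ℂ b e =
      (Matrix.of fun t l : Fin n => σ t (w l : K)).transpose := by
    ext i j
    change e j (b i) = σ j (w i : K)
    rw [hb]
    rfl
  rw [h4, Matrix.det_transpose] at h3
  exact h3

/-- the linear forms -/
private noncomputable def tup_A {K : Type} [Field K] [NumberField K] {n r : ℕ}
    (β : Fin n → 𝓞 K) (φ : K →+* ℂ) (j : Fin r) : MvPolynomial (Fin r × Fin n) ℂ :=
  ∑ l, C (φ (β l : K)) * X (j, l)

private theorem tup_Adeg {K : Type} [Field K] [NumberField K] {n r : ℕ}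
    (β : Fin n → 𝓞 K) (φ : K →+* ℂ) (j : Fin r) : (tup_A β φ j).totalDegree ≤ 1 := by
  refine totalDegree_finsetSum_le fun l _ => ?_
  refine (totalDegree_mul _ _).trans ?_
  rw [totalDegree_C, zero_add, totalDegree_X]

private theorem tup_Aev {K : Type} [Field K] [NumberField K] {n r : ℕ}
    (β : Fin n → 𝓞 K) (φ : K →+* ℂ) (j : Fin r) (c : Fin r × Fin n → ℂ) :
    eval c (tup_A β φ j) = ∑ l, φ (β l : K) * c (j, l) := by
  rw [tup_A, map_sum]
  refine Finset.sum_congr rfl fun l _ => ?_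
  rw [map_mul, eval_C, eval_X]

private theorem tup_sz {τ : Type} [Fintype τ] [DecidableEq τ] (p : MvPolynomial τ ℂ) (hp : p ≠ 0)
    (Z L : ℕ) (hZ : p.totalDegree ≤ Z) (q : τ → ℕ) (hL0 : 0 < L) (hq : ∀ i, L ≤ q i)
    (hLZ : 2 * (Fintype.card τ * Z) ≤ L) :
    (∏ i, q i) ≤ 2 * ((Fintype.piFinset fun i => Finset.range (q i)).filter
      fun c => eval (fun i => ((c i : ℕ) : ℂ)) p ≠ 0).card := by
  classical
  obtain ⟨N, hN⟩ : ∃ N, N = Fintype.card τ := ⟨_, rfl⟩
  obtain ⟨e⟩ : Nonempty (τ ≃ Fin N) := by rw [hN]; exact ⟨Fintype.equivFin τ⟩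
  rw [← hN] at hLZ
  obtain ⟨S, hSdef⟩ : ∃ S : Fin N → Finset ℂ,
      ∀ i, S i = (Finset.range (q (e.symm i))).image (fun t : ℕ => (t : ℂ)) := ⟨_, fun i => rfl⟩
  have hS : ∀ i, (S i).card = q (e.symm i) := by
    intro i
    rw [hSdef, Finset.card_image_of_injective _ Nat.cast_injective, Finset.card_range]
  have hp' : rename e p ≠ 0 := by
    intro h
    exact hp (rename_injective e e.injective (by rw [h, map_zero]))
  have h1 := schwartz_zippel_sum_degreeOf hp' S
  have hLq : (0 : ℚ≥0) < (L : ℚ≥0) := by exact_mod_cast hL0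
  have h2 : ∑ i, ((rename e p).degreeOf i / (S i).card : ℚ≥0) ≤ 1 / 2 := by
    have h3 : ∀ i ∈ (Finset.univ : Finset (Fin N)),
        ((rename e p).degreeOf i / (S i).card : ℚ≥0) ≤ (Z : ℚ≥0) / L := by
      intro i _
      have h4 : (rename e p).degreeOf i ≤ Z :=
        (degreeOf_le_totalDegree _ _).trans ((totalDegree_rename_le _ _).trans hZ)
      have h5 : L ≤ (S i).card := by rw [hS]; exact hq _
      exact div_le_div₀ (zero_le) (by exact_mod_cast h4) hLq (by exact_mod_cast h5)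
    refine (Finset.sum_le_sum h3).trans ?_
    rw [Finset.sum_const, Finset.card_univ, Fintype.card_fin, nsmul_eq_mul, ← mul_div_assoc,
      div_le_div_iff₀ hLq (by norm_num)]
    have h6 : N * Z * 2 ≤ 1 * L := by omega
    exact_mod_cast h6
  have hprod : ∏ i, (S i).card = ∏ i, q i := by
    rw [Finset.prod_congr rfl (fun i _ => hS i)]
    exact Fintype.prod_equiv e.symm _ _ (fun i => rfl)
  have hpos : (0 : ℚ≥0) < ∏ i, ((S i).card : ℚ≥0) := by
    refine Finset.prod_pos fun i _ => ?_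
    have : 0 < (S i).card := by rw [hS]; exact lt_of_lt_of_le hL0 (hq _)
    exact_mod_cast this
  have h7 := h1.trans h2
  rw [div_le_div_iff₀ hpos (by norm_num), one_mul] at h7
  have h8 : ((Fintype.piFinset S).filter fun x => eval x (rename e p) = 0).card * 2 ≤
      ∏ i, q i := by
    rw [← hprod]
    exact_mod_cast h7
  have h9 : ((Fintype.piFinset fun i => Finset.range (q i)).filter
      fun c => ¬ eval (fun i => ((c i : ℕ) : ℂ)) p ≠ 0).card ≤
      ((Fintype.piFinset S).filter fun x => eval x (rename e p) = 0).card := by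
    refine Finset.card_le_card_of_injOn (fun c i => ((c (e.symm i) : ℕ) : ℂ)) ?_ ?_
    · intro c hc
      rw [Finset.mem_coe, Finset.mem_filter, Fintype.mem_piFinset] at hc
      rw [Finset.mem_coe, Finset.mem_filter, Fintype.mem_piFinset]
      refine ⟨fun i => ?_, ?_⟩
      · rw [hSdef]
        exact Finset.mem_image_of_mem _ (hc.1 _)
      · rw [eval_rename]
        have h10 : ((fun i => ((c (e.symm i) : ℕ) : ℂ)) ∘ e) = fun i => ((c i : ℕ) : ℂ) := by
          funext i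
          simp
        rw [h10]
        exact not_not.1 hc.2
    · intro c _ c' _ h
      funext i
      have h10 := congrFun h (e i)
      simp only [Equiv.symm_apply_apply] at h10
      exact_mod_cast h10
  have h10 := Finset.card_filter_add_card_filter_not
    (s := Fintype.piFinset fun i => Finset.range (q i))
    (fun c => eval (fun i => ((c i : ℕ) : ℂ)) p ≠ 0)
  rw [Fintype.card_piFinset] at h10
  simp only [Finset.card_range] at h10
  omega

theorem tupleW (n m r k : ℕ) (hn : 1 ≤ n) (hm : 1 ≤ m) (h : n ≤ m ^ (r + 1)) :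
    ∃ b : Fin n × mon (r + 1) k → (Fin (r + 1) →₀ ℕ), (∀ i, (b i).degree ≤ dg m r k) ∧
      ∀ (K : Type) [Field K] [NumberField K], finrank ℚ K = n →
        ∀ w : Fin n → 𝓞 K, LinearIndependent ℚ (fun i => (w i : K)) →
        ∀ (l : Fin n → ℝ) (W : ℝ), (∀ i, 0 < l i) → (∀ i, l i ≤ W) →
        (∀ (i : Fin n) (φ : K →+* ℂ), ‖φ (w i : K)‖ ≤ l i) →
        ∃ 𝒳 : Finset (Fin (r + 1) → 𝓞 K),
          (∀ x ∈ 𝒳, (∀ (φ : K →+* ℂ) (j : Fin (r + 1)), ‖φ (x j : K)‖ ≤ sw n m r k * W) ∧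
            det1 b x ≠ 0 ∧ det2 n x ≠ 0) ∧
          (W ^ n / ∏ i, l i) ^ (r + 1) ≤ (𝒳.card : ℝ) := by
  classical
  obtain ⟨v, b, -, hbdeg, hdet⟩ := grid n m (r + 1) k hm h
  have hD0 : dg m r k = (r + 1) * (m - 1) + m * k := rfl
  set D0 := dg m r k with hD0'
  rw [← hD0] at hbdeg
  set L := Fintype.card (Fin n × mon (r + 1) k) * D0 + n * n with hL
  refine ⟨b, hbdeg, fun K _ _ hK β hβi l W hl0 hlW hβ => ?_⟩
  have hcard : Fintype.card (K →+* ℂ) = n := by rw [Embeddings.card, hK]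
  let σ : Fin n ≃ (K →+* ℂ) := (Fintype.equivFinOfCardEq hcard).symm
  have hinv := tup_inv K n hK β hβi σ
  set M : Matrix (Fin n) (Fin n) ℂ := Matrix.of fun t l : Fin n => σ t (β l : K) with hM
  let A : Fin n → Fin (r + 1) → MvPolynomial (Fin (r + 1) × Fin n) ℂ := fun t j =>
    tup_A β (σ t) j
  let G1 : MvPolynomial (Fin (r + 1) × Fin n) ℂ :=
    (Matrix.of fun i j : Fin n × mon (r + 1) k => jet (A i.1) i.2.1 (b j)).det
  let G2 : MvPolynomial (Fin (r + 1) × Fin n) ℂ :=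
    ∏ p ∈ (Finset.univ : Finset (Fin n × Fin n)).filter (fun p => p.1 ≠ p.2),
      (A p.1 0 - A p.2 0)
  have hG1deg : G1.totalDegree ≤ Fintype.card (Fin n × mon (r + 1) k) * D0 := by
    refine tup_detdeg _ D0 fun i j => ?_
    exact (tup_jetdeg _ (tup_Adeg _ _) _ _).trans (hbdeg j)
  have hG2deg : G2.totalDegree ≤ n * n := by
    refine (totalDegree_finsetProd _ _).trans ?_
    refine (Finset.sum_le_sum (g := fun _ => 1) fun p _ => ?_).trans ?_
    · refine (totalDegree_sub _ _).trans (max_le (tup_Adeg _ _ _) (tup_Adeg _ _ _))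
    · rw [Finset.sum_const, smul_eq_mul, mul_one]
      refine (Finset.card_filter_le _ _).trans ?_
      rw [Finset.card_univ, Fintype.card_prod, Fintype.card_fin]
  have hev1 : ∀ c : Fin (r + 1) × Fin n → ℂ, eval c G1 =
      (Matrix.of fun i j : Fin n × mon (r + 1) k =>
        jet (fun a => eval c (A i.1 a)) i.2.1 (b j)).det := by
    intro c
    change eval c (Matrix.det _) = _
    rw [RingHom.map_det]
    congr 1
    ext i j
    change eval c (jet (A i.1) i.2.1 (b j)) = _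
    rw [jet_map]
    rfl
  have hG1 : G1 ≠ 0 := by
    intro h0
    let c : Fin (r + 1) × Fin n → ℂ := fun p => (M⁻¹.mulVec fun t => ((v t p.1 : ℤ) : ℂ)) p.2
    have hc : ∀ t a, eval c (A t a) = ((v t a : ℤ) : ℂ) := by
      intro t a
      change eval c (tup_A β (σ t) a) = _
      rw [tup_Aev]
      change (M.mulVec (M⁻¹.mulVec fun t => ((v t a : ℤ) : ℂ))) t = _
      rw [Matrix.mulVec_mulVec, Matrix.mul_nonsing_inv _ (isUnit_iff_ne_zero.2 hinv),
        Matrix.one_mulVec]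
    have h1 := hev1 c
    rw [h0, map_zero] at h1
    apply hdet
    have h2 : (((Matrix.of fun i j : Fin n × mon (r + 1) k =>
        (jet (v i.1) i.2.1 (b j) : ℤ)).det : ℤ) : ℂ) = 0 := by
      rw [h1]
      change (Int.castRingHom ℂ) (Matrix.det _) = _
      rw [RingHom.map_det]
      congr 1
      ext i j
      change (Int.castRingHom ℂ) (jet (v i.1) i.2.1 (b j)) = jet _ _ _
      rw [jet_map]
      congr 1
      funext a
      rw [hc]
      rfl
    exact_mod_cast h2
  have hG2 : G2 ≠ 0 := by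
    refine Finset.prod_ne_zero_iff.2 fun p hp h0 => ?_
    have hne := (Finset.mem_filter.1 hp).2
    apply hinv
    refine Matrix.det_zero_of_row_eq hne ?_
    funext l
    have h1 := congrArg (eval (Pi.single ((0 : Fin (r + 1)), l) (1 : ℂ))) h0
    rw [map_sub, map_zero] at h1
    change eval _ (tup_A β (σ p.1) 0) - eval _ (tup_A β (σ p.2) 0) = 0 at h1
    rw [tup_Aev, tup_Aev, Finset.sum_eq_single l, Finset.sum_eq_single l] at h1
    · rw [Pi.single_eq_same, mul_one, mul_one] at h1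
      exact sub_eq_zero.1 h1
    · intro l' _ hl'
      rw [Pi.single_eq_of_ne, mul_zero]
      intro h2
      exact hl' (congrArg Prod.snd h2)
    · intro h2
      exact absurd (Finset.mem_univ _) h2
    · intro l' _ hl'
      rw [Pi.single_eq_of_ne, mul_zero]
      intro h2
      exact hl' (congrArg Prod.snd h2)
    · intro h2
      exact absurd (Finset.mem_univ _) h2
  -- many points in the grid
  have hLdz : L = dz n m r k := by
    rw [hL, dz, Fintype.card_prod, Fintype.card_fin, Fintype.card_coe]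
    rfl
  have hG12 : G1 * G2 ≠ 0 := mul_ne_zero hG1 hG2
  have hG12deg : (G1 * G2).totalDegree ≤ dz n m r k := by
    rw [← hLdz]
    exact (totalDegree_mul _ _).trans (add_le_add hG1deg hG2deg)
  obtain ⟨Z, hZ⟩ : ∃ Z, Z = dz n m r k := ⟨_, rfl⟩
  have hZ1 : 1 ≤ Z := by
    rw [hZ, dz]
    have : 1 * 1 ≤ n * n := Nat.mul_le_mul hn hn
    omega
  obtain ⟨Lq, hLq⟩ : ∃ Lq, Lq = 2 * (n * (r + 1)) * Z := ⟨_, rfl⟩
  have hnr : 1 * 1 ≤ n * (r + 1) := Nat.mul_le_mul hn (by omega)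
  have hLq2 : 2 ≤ Lq := by
    rw [hLq]
    have h1 : 2 * 1 ≤ 2 * (n * (r + 1)) := Nat.mul_le_mul_left _ (by omega)
    calc 2 = 2 * 1 * 1 := by norm_num
      _ ≤ 2 * (n * (r + 1)) * Z := Nat.mul_le_mul h1 hZ1
  have hW0 : 0 < W := lt_of_lt_of_le (hl0 ⟨0, hn⟩) (hlW ⟨0, hn⟩)
  have hWl : ∀ i, 1 ≤ W / l i := fun i => (one_le_div (hl0 i)).2 (hlW i)
  obtain ⟨q, hq⟩ : ∃ q : Fin (r + 1) × Fin n → ℕ, ∀ p, q p = Lq * ⌈W / l p.2⌉₊ := ⟨_, fun p => rfl⟩
  have hqL : ∀ p, Lq ≤ q p := by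
    intro p
    rw [hq]
    have : 1 ≤ ⌈W / l p.2⌉₊ := Nat.one_le_ceil_iff.2 (lt_of_lt_of_le one_pos (hWl _))
    exact Nat.le_mul_of_pos_right _ this
  have hgood := tup_sz (G1 * G2) hG12 Z Lq (by rw [hZ]; exact hG12deg) q (by omega) hqL (by
    rw [Fintype.card_prod, Fintype.card_fin, Fintype.card_fin, hLq]
    exact le_of_eq (by ring))
  obtain ⟨GC, hGC⟩ : ∃ GC : Finset (Fin (r + 1) × Fin n → ℕ),
      GC = (Fintype.piFinset fun i => Finset.range (q i)).filter
        fun c => eval (fun i => ((c i : ℕ) : ℂ)) (G1 * G2) ≠ 0 := ⟨_, rfl⟩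
  rw [← hGC] at hgood
  let X : (Fin (r + 1) × Fin n → ℕ) → (Fin (r + 1) → 𝓞 K) :=
    fun c j => ∑ l, (c (j, l) : 𝓞 K) * β l
  have hXinj : Function.Injective X := by
    intro c c' hcc
    funext p
    obtain ⟨j, i⟩ := p
    have h1 := congrFun hcc j
    have h2 : ∑ l, (((c (j, l) : ℕ) : ℚ) - ((c' (j, l) : ℕ) : ℚ)) • (β l : K) = 0 := by
      have h3 := congrArg (fun z : 𝓞 K => (z : K)) h1
      have h4 : ∀ c : Fin (r + 1) × Fin n → ℕ, ((∑ l, (c (j, l) : 𝓞 K) * β l : 𝓞 K) : K) =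
          ∑ l, ((c (j, l) : ℕ) : ℚ) • (β l : K) := by
        intro c
        change (algebraMap (𝓞 K) K) _ = _
        rw [map_sum]
        refine Finset.sum_congr rfl fun l _ => ?_
        rw [map_mul, map_natCast, Algebra.smul_def]
        simp
      change ((∑ l, (c (j, l) : 𝓞 K) * β l : 𝓞 K) : K) =
        ((∑ l, (c' (j, l) : 𝓞 K) * β l : 𝓞 K) : K) at h3
      rw [h4, h4] at h3
      simp only [sub_smul]
      rw [Finset.sum_sub_distrib, h3, sub_self]
    have h5 := Fintype.linearIndependent_iff.1 hβi _ h2 i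
    have h6 : ((c (j, i) : ℕ) : ℚ) = ((c' (j, i) : ℕ) : ℚ) := sub_eq_zero.1 h5
    exact_mod_cast h6
  refine ⟨GC.image X, ?_, ?_⟩
  swap
  · rw [Finset.card_image_of_injective _ hXinj]
    have hA0 : 0 ≤ (W ^ n / ∏ i, l i) ^ (r + 1) := by
      have : 0 ≤ ∏ i, l i := Finset.prod_nonneg fun i _ => (hl0 i).le
      positivity
    have h1 : ((∏ p, q p : ℕ) : ℝ) ≤ 2 * (GC.card : ℝ) := by exact_mod_cast hgood
    have h2 : (∏ p, q p : ℕ) = (∏ i : Fin n, (Lq * ⌈W / l i⌉₊)) ^ (r + 1) := by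
      rw [Fintype.prod_prod_type]
      simp only [hq]
      rw [Finset.prod_const, Finset.card_univ, Fintype.card_fin]
    have h3 : (Lq : ℝ) ^ n * (W ^ n / ∏ i, l i) ≤ ((∏ i : Fin n, (Lq * ⌈W / l i⌉₊) : ℕ) : ℝ) := by
      have h4 : (Lq : ℝ) ^ n * (W ^ n / ∏ i, l i) = ∏ i : Fin n, ((Lq : ℝ) * (W / l i)) := by
        rw [Finset.prod_mul_distrib, Finset.prod_div_distrib, Finset.prod_const,
          Finset.prod_const, Finset.card_univ, Fintype.card_fin]
      rw [h4]
      push_cast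
      refine Finset.prod_le_prod (fun i _ => ?_) fun i _ => ?_
      · have := hWl i
        positivity
      · exact mul_le_mul_of_nonneg_left (Nat.le_ceil _) (Nat.cast_nonneg _)
    have hB0 : 0 ≤ W ^ n / ∏ i, l i := by
      have : 0 ≤ ∏ i, l i := Finset.prod_nonneg fun i _ => (hl0 i).le
      positivity
    have h5 : ((Lq : ℝ) ^ n * (W ^ n / ∏ i, l i)) ^ (r + 1) ≤ 2 * (GC.card : ℝ) := by
      refine le_trans ?_ h1
      rw [h2]
      push_cast
      push_cast at h3
      exact pow_le_pow_left₀ (mul_nonneg (by positivity) hB0) h3 _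
    have h6 : (2 : ℝ) ≤ ((Lq : ℝ) ^ n) ^ (r + 1) := by
      rw [← pow_mul]
      have h7 : (2 : ℝ) ≤ (Lq : ℝ) := by exact_mod_cast hLq2
      calc (2 : ℝ) ≤ (Lq : ℝ) ^ 1 := by rw [pow_one]; exact h7
        _ ≤ (Lq : ℝ) ^ (n * (r + 1)) := pow_le_pow_right₀ (by linarith) (by omega)
    rw [mul_pow] at h5
    have h8 := mul_le_mul_of_nonneg_right h6 hA0
    linarith
  intro x0 hx0
  obtain ⟨c, hcGC, rfl⟩ := Finset.mem_image.1 hx0
  rw [hGC, Finset.mem_filter, Fintype.mem_piFinset] at hcGC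
  obtain ⟨hcL, hc⟩ := hcGC
  rw [map_mul] at hc
  have hc1 := left_ne_zero_of_mul hc
  have hc2 := right_ne_zero_of_mul hc
  obtain ⟨x, hxdef⟩ : ∃ x : Fin (r + 1) → 𝓞 K, x = X c := ⟨_, rfl⟩
  rw [← hxdef]
  have hx : ∀ (φ : K →+* ℂ) (j : Fin (r + 1)), φ (x j : K) =
      eval (fun p => (c p : ℂ)) (tup_A β φ j) := by
    intro φ j
    rw [tup_Aev, hxdef]
    change (φ.comp (algebraMap (𝓞 K) K)) (∑ l, (c (j, l) : 𝓞 K) * β l) = _
    rw [map_sum]
    refine Finset.sum_congr rfl fun l _ => ?_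
    rw [map_mul, map_natCast, mul_comm]
    rfl
  refine ⟨?_, ?_, ?_⟩
  · intro φ j
    rw [hx, tup_Aev]
    refine (norm_sum_le _ _).trans ?_
    refine (Finset.sum_le_sum (g := fun _ => 2 * (Lq : ℝ) * W) fun i _ => ?_).trans ?_
    · rw [norm_mul, Complex.norm_natCast]
      have h1 : ((c (j, i) : ℕ) : ℝ) ≤ (Lq : ℝ) * (W / l i + 1) := by
        have h2 : c (j, i) ≤ q (j, i) := (Finset.mem_range.1 (hcL (j, i))).le
        rw [hq] at h2
        have h3 : ((c (j, i) : ℕ) : ℝ) ≤ (Lq : ℝ) * (⌈W / l i⌉₊ : ℝ) := by exact_mod_cast h2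
        refine h3.trans (mul_le_mul_of_nonneg_left ?_ (Nat.cast_nonneg _))
        exact (Nat.ceil_lt_add_one (le_trans zero_le_one (hWl i))).le
      calc ‖φ (β i : K)‖ * ((c (j, i) : ℕ) : ℝ) ≤ l i * ((Lq : ℝ) * (W / l i + 1)) :=
            mul_le_mul (hβ i φ) h1 (Nat.cast_nonneg _) (hl0 i).le
        _ = (Lq : ℝ) * (W + l i) := by
            have := (hl0 i).ne'
            field_simp
        _ ≤ (Lq : ℝ) * (W + W) := by
            have := hlW i
            exact mul_le_mul_of_nonneg_left (by linarith) (Nat.cast_nonneg _)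
        _ = 2 * (Lq : ℝ) * W := by ring
    · rw [Finset.sum_const, Finset.card_univ, Fintype.card_fin, nsmul_eq_mul, sw, ← hZ, ← hLq]
      push_cast
      exact le_of_eq (by ring)
  · refine gram_det_ne
      (fun (i : Fin n × mon (r + 1) k) (α : mon (r + 1) k) => jet x α.1 (b i))
      (σ.prodCongr (Equiv.refl _)) fun h0 => ?_
    apply hc1
    rw [hev1, ← h0]
    congr 1
    ext i j
    change jet (fun a => eval (fun p => (c p : ℂ)) (A i.1 a)) i.2.1 (b j) =
      ((σ i.1).comp (algebraMap (𝓞 K) K)) (jet x i.2.1 (b j))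
    rw [jet_map]
    congr 1
    funext a
    exact (hx (σ i.1) a).symm
  · refine vander K n σ (x 0) fun s t hst => ?_
    by_contra hne
    apply hc2
    rw [map_prod]
    refine Finset.prod_eq_zero (i := (s, t))
      (Finset.mem_filter.2 ⟨Finset.mem_univ _, hne⟩) ?_
    rw [map_sub]
    change eval _ (tup_A β (σ s) 0) - eval _ (tup_A β (σ t) 0) = 0
    rw [← hx, ← hx]
    exact sub_eq_zero.2 hst

end NFW
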