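import Pool.Agent.Lib.NFW.ShortP
import Pool.Agent.Lib.NFW.TupleW
import Pool.Agent.Lib.NFW.ClsFibW
import Pool.Agent.Lib.NFW.CountT
import Pool.Agent.Lib.NFU.DeltaU
import Pool.Agent.Lib.NFU.Cheb

/-!
MP_44a56e_nt (weighted), module CoreW (about 220 lines): the explicit count.

PROOF of `coreW`. As `NFU.core` (Lib/NFU/Core.lean), counting pairs `(K, x)`. `b` from `tupleW`. For `K ∈ FS n X`: `w, l` from `short_prod`, `W = 2 n X^(1/n) ≥ l i`, `𝒳 K` from `tupleW`: the `x ∈ 𝒳 K` have all conjugates `≤ sw * W ≤ R`, `det1 ≠ 0`, `det2 ≠ 0`, and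
`card (𝒳 K) ≥ (W^n/∏ l)^(r+1) ≥ ((2n)^n X / ((2n)^n √X))^(r+1) = X^((r+1)/2)`. `𝒫` = set of pairs `P` with `P.1 ∈ FS n X`, `P.2 ∈ 𝒳 P.1`. For `P ∈ 𝒫`: `delta_boundU`, `exists_not_dvdU`: a prime `p ∈ S` dividing neither determinant, `exists_cl`: a class. For `p ∈ S`, `cl`: the set of the pairs of this class has at most `d1 * n` elements
(`count_tuples`, `prim_of_det`, `class_fibreW`). So `𝒫` is finite with at most `card S * P^(n(r+1)) * (d1 * n)` elements. `FS n X` is the image of `𝒫` (`𝒳 K` is nonempty as its cardinality is `≥ 1`), so finite, and `card 𝒫 = ∑_K card (𝒳 K) ≥ card (FS n X) * X^((r+1)/2)`.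
-/

set_option autoImplicit false

open MvPolynomial Module NumberField NFH NFU

namespace NFW

private theorem card_ClW (n r p : ℕ) : Fintype.card (Cl n r p) = p ^ (n * (r + 1)) := by
  simp only [Cl, Fintype.card_prod, Fintype.card_fun, Fintype.card_fin]
  rw [← pow_mul, ← pow_add]
  congr 1
  ring

private theorem pow_ineqW (n r : ℕ) (hn : 1 ≤ n) (X Q : ℝ) (hX : 1 ≤ X) (hQ : 0 < Q)
    (hQX : Q ≤ (2 * (n : ℝ)) ^ n * Real.sqrt X) :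
    X ^ (((r : ℝ) + 1) / 2) ≤ ((2 * n * X ^ ((1 : ℝ) / n)) ^ n / Q) ^ (r + 1) := by
  have hX0 : 0 < X := by linarith
  have hn0 : (0 : ℝ) < n := by exact_mod_cast hn
  have hs0 : 0 < Real.sqrt X := Real.sqrt_pos.2 hX0
  have h1 : (2 * n * X ^ ((1 : ℝ) / n)) ^ n = (2 * (n : ℝ)) ^ n * X := by
    rw [mul_pow]
    congr 1
    rw [← Real.rpow_natCast, ← Real.rpow_mul hX0.le, one_div, inv_mul_cancel₀ hn0.ne',
      Real.rpow_one]
  have h2 : Real.sqrt X ≤ (2 * n * X ^ ((1 : ℝ) / n)) ^ n / Q := by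
    rw [h1, le_div_iff₀ hQ]
    calc Real.sqrt X * Q ≤ Real.sqrt X * ((2 * (n : ℝ)) ^ n * Real.sqrt X) :=
          mul_le_mul_of_nonneg_left hQX hs0.le
      _ = (2 * (n : ℝ)) ^ n * (Real.sqrt X * Real.sqrt X) := by ring
      _ = (2 * (n : ℝ)) ^ n * X := by rw [Real.mul_self_sqrt hX0.le]
  have h3 : X ^ (((r : ℝ) + 1) / 2) = Real.sqrt X ^ (r + 1) := by
    rw [Real.sqrt_eq_rpow, ← Real.rpow_natCast, ← Real.rpow_mul hX0.le]
    congr 1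
    push_cast
    ring
  rw [h3]
  exact pow_le_pow_left₀ hs0.le h2 _

private theorem exists_XW (n m r k : ℕ) (hn : 1 ≤ n) (X : ℝ) (R : ℕ) (hX : 1 ≤ X)
    (hR : (sw n m r k : ℝ) * (2 * n * X ^ ((1 : ℝ) / n)) ≤ R)
    (b : Fin n × mon (r + 1) k → (Fin (r + 1) →₀ ℕ))
    (ht : ∀ (K : Type) [Field K] [NumberField K], finrank ℚ K = n →
        ∀ w : Fin n → 𝓞 K, LinearIndependent ℚ (fun i => (w i : K)) →
        ∀ (l : Fin n → ℝ) (W : ℝ), (∀ i, 0 < l i) → (∀ i, l i ≤ W) →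
        (∀ (i : Fin n) (φ : K →+* ℂ), ‖φ (w i : K)‖ ≤ l i) →
        ∃ 𝒳 : Finset (Fin (r + 1) → 𝓞 K),
          (∀ x ∈ 𝒳, (∀ (φ : K →+* ℂ) (j : Fin (r + 1)), ‖φ (x j : K)‖ ≤ sw n m r k * W) ∧
            det1 b x ≠ 0 ∧ det2 n x ≠ 0) ∧
          (W ^ n / ∏ i, l i) ^ (r + 1) ≤ (𝒳.card : ℝ))
    (K : IntermediateField ℚ ℂ) : ∃ 𝒳 : Finset (Fin (r + 1) → 𝓞 K), K ∈ FS n X →
      X ^ (((r : ℝ) + 1) / 2) ≤ (𝒳.card : ℝ) ∧ ∀ x ∈ 𝒳,
      ∃ _ : NumberField K, finrank ℚ K = n ∧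
        (∀ (φ : K →+* ℂ) (j : Fin (r + 1)), ‖φ (x j : K)‖ ≤ (R : ℝ)) ∧ det1 b x ≠ 0 ∧
          det2 n x ≠ 0 := by
  by_cases hK : K ∈ FS n X
  · obtain ⟨h1, h2, h3⟩ := hK
    obtain ⟨w, l, hw1, hl0, hl1, hw2, hl2⟩ := short_prod K n (by convert h1)
    have hprod : 0 < ∏ i, l i := Finset.prod_pos fun i _ => hl0 i
    obtain ⟨𝒳, hx1, hx2⟩ := ht K (by convert h1) w hw1 l (2 * n * X ^ ((1 : ℝ) / n)) hl0
      (fun i => (hl1 i).trans
        (mul_le_mul_of_nonneg_left (Real.rpow_le_rpow (abs_nonneg _) h3 (by positivity))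
          (by positivity))) hw2
    refine ⟨𝒳, fun _ => ⟨?_, fun x hx => ⟨h2, h1, fun φ j => ((hx1 x hx).1 φ j).trans hR,
      (hx1 x hx).2.1, (hx1 x hx).2.2⟩⟩⟩
    refine (pow_ineqW n r hn X (∏ i, l i) hX hprod ?_).trans hx2
    exact hl2.trans (mul_le_mul_of_nonneg_left (Real.sqrt_le_sqrt h3) (by positivity))
  · exact ⟨∅, fun h => absurd h hK⟩

theorem coreW (n m r k κ d1 : ℕ) (c : ℝ) (hn : 1 ≤ n) (hm : 1 ≤ m) (h : n ≤ m ^ (r + 1))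
    (hc : 0 < c) (hcD : ((dg m r k + 1 : ℕ) : ℝ) / ((k + 1 : ℕ) : ℝ) ≤ c)
    (hgrow : NFW.Grw (r + 1) (dg m r k + 1) (k + 1) κ d1 c) (X : ℝ) (R : ℕ) (hX : 1 ≤ X)
    (hR : 2 ≤ R) (hRX : (sw n m r k : ℝ) * (2 * n * X ^ ((1 : ℝ) / n)) ≤ R)
    (hsz : n * nj r k ≤ R) (S : Finset ℕ) (hS : ∀ p ∈ S, p.Prime)
    (hSR : ∀ p ∈ S, (R : ℝ) ^ c ≤ (p : ℝ)) (hSκ : ∀ p ∈ S, (d1 + 1) ^ (r + 1) ≤ p ^ κ)
    (hSe : (R : ℝ) ^ ex n m r k < ((R : ℝ) ^ c) ^ S.card) (P : ℕ) (hSP : ∀ p ∈ S, p ≤ P) :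
    (FS n X).Finite ∧ ((FS n X).ncard : ℝ) * X ^ (((r : ℝ) + 1) / 2) ≤
      ((S.card * (P ^ (n * (r + 1)) * (d1 * n)) : ℕ) : ℝ) := by
  classical
  obtain ⟨b, hb, ht⟩ := tupleW n m r k hn hm h
  have hR2 : (2 : ℝ) ≤ (R : ℝ) := by exact_mod_cast hR
  have hR1 : (1 : ℝ) ≤ (R : ℝ) := by linarith
  have hR1' : 1 ≤ R := by omega
  have hR0 : (0 : ℝ) < (R : ℝ) := by linarith
  have hszR : ((n * nj r k : ℕ) : ℝ) ≤ (R : ℝ) := by exact_mod_cast hsz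
  have hRc : 1 ≤ (R : ℝ) ^ c := Real.one_le_rpow hR1 hc.le
  choose 𝒳 h𝒳 using exists_XW n m r k hn X R hX hRX b ht
  set Sf : ∀ p : ℕ, Cl n r p → Set (Σ K : IntermediateField ℚ ℂ, (Fin (r + 1) → 𝓞 K)) :=
    fun p cl => {Q | (Q.1 ∈ FS n X ∧ Q.2 ∈ 𝒳 Q.1) ∧ p ∈ S ∧ ∃ _ : NumberField Q.1,
      ¬ (p : ℤ) ∣ det1 b Q.2 ∧ ¬ (p : ℤ) ∣ det2 n Q.2 ∧ InCl Q.2 cl} with hSf
  have hcount : ∀ (p : ℕ) (cl : Cl n r p), (Sf p cl).Finite ∧ (Sf p cl).ncard ≤ d1 * n := by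
    intro p cl
    by_cases hpS : p ∈ S
    · refine count_tuples n r d1 hn (Sf p cl) (fun Q hQ => hQ.1.1.1) ?_ ?_
      · intro Q hQ
        obtain ⟨hK0, hK1, hK2, hK3⟩ := (h𝒳 Q.1 hQ.1.1).2 Q.2 hQ.1.2
        have := prim_of_det Q.1 n (by convert hK1) (Q.2 0) hK3.2
        convert this
      · intro ι hι hinj
        have hNF : ∀ Q : {Q // Q ∈ ι}, NumberField (Q.1.1 : IntermediateField ℚ ℂ) := by
          intro Q
          obtain ⟨hK0, -⟩ := (h𝒳 Q.1.1 (hι Q.1 Q.2).1.1).2 Q.1.2 (hι Q.1 Q.2).1.2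
          exact hK0
        have h1 := class_fibreW n m r k κ d1 c hc hcD hgrow b hb {Q // Q ∈ ι}
          (fun Q => (Q.1.1 : IntermediateField ℚ ℂ))
          (fun Q => Q.1.2) R p hR1' (hS p hpS) (hSκ p hpS) (hSR p hpS) (by
            intro Q
            convert (hι Q.1 Q.2).1.1.1) (by
            intro Q φ j
            obtain ⟨hK0, hK1, hK2, hK3⟩ :=
              (h𝒳 Q.1.1 (hι Q.1 Q.2).1.1).2 Q.1.2 (hι Q.1 Q.2).1.2
            exact hK2 φ j) (by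
            intro Q
            obtain ⟨hK0, hK', hK1, hK2, hK3, hK4⟩ := hι Q.1 Q.2
            exact hK2) (by
            intro Q
            obtain ⟨hK0, hK', hK1, hK2, hK3, hK4⟩ := hι Q.1 Q.2
            exact hK3) cl (by
            intro Q
            obtain ⟨hK0, hK', hK1, hK2, hK3, hK4⟩ := hι Q.1 Q.2
            exact hK4) (by
            intro Q L hQL
            exact Subtype.ext (hinj Q.1 Q.2 L.1 L.2 hQL))
        rw [Fintype.card_coe] at h1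
        exact h1
    · have h1 : Sf p cl = ∅ := by
        rw [Set.eq_empty_iff_forall_notMem]
        exact fun Q hQ => hpS hQ.2.1
      rw [h1]
      exact ⟨Set.finite_empty, by rw [Set.ncard_empty]; exact Nat.zero_le _⟩
  have hcover : ∀ Q : (Σ K : IntermediateField ℚ ℂ, (Fin (r + 1) → 𝓞 K)), Q.1 ∈ FS n X →
      Q.2 ∈ 𝒳 Q.1 → ∃ p ∈ S, ∃ cl : Cl n r p, Q ∈ Sf p cl := by
    intro Q hQ hQ2
    obtain ⟨hK0, hK1, hK2, hK3, hK4⟩ := (h𝒳 Q.1 hQ).2 Q.2 hQ2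
    have h1 := delta_boundU n m r k b hb Q.1 (by convert hK1) Q.2 R hR2 hK2 hszR
    obtain ⟨p, hp, hdvd⟩ := exists_not_dvdU S hS ((R : ℝ) ^ c) hRc hSR
      (det1 b Q.2 * det2 n Q.2) (mul_ne_zero hK3 hK4) (lt_of_le_of_lt h1 hSe)
    have h6 : ¬ (p : ℤ) ∣ det1 b Q.2 := fun h => hdvd (Dvd.dvd.mul_right h _)
    have h7 : ¬ (p : ℤ) ∣ det2 n Q.2 := fun h => hdvd (Dvd.dvd.mul_left h _)
    obtain ⟨cl, hcl⟩ := exists_cl (by convert hK1) Q.2 p (hS p hp) h7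
    exact ⟨p, hp, cl, ⟨hQ, hQ2⟩, hp, hK0, h6, h7, hcl⟩
  set F : Finset (Σ K : IntermediateField ℚ ℂ, (Fin (r + 1) → 𝓞 K)) := S.biUnion
    (fun p => (Finset.univ : Finset (Cl n r p)).biUnion
      (fun cl => (hcount p cl).1.toFinset)) with hF
  have hsub : ∀ Q : (Σ K : IntermediateField ℚ ℂ, (Fin (r + 1) → 𝓞 K)), Q.1 ∈ FS n X →
      Q.2 ∈ 𝒳 Q.1 → Q ∈ F := by
    intro Q hQ hQ2
    obtain ⟨p, hp, cl, hcl⟩ := hcover Q hQ hQ2
    rw [hF, Finset.mem_biUnion]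
    refine ⟨p, hp, ?_⟩
    rw [Finset.mem_biUnion]
    refine ⟨cl, Finset.mem_univ _, ?_⟩
    rw [Set.Finite.mem_toFinset]
    exact hcl
  have hFcard : F.card ≤ S.card * (P ^ (n * (r + 1)) * (d1 * n)) := by
    rw [hF]
    refine Finset.card_biUnion_le_card_mul S _ (P ^ (n * (r + 1)) * (d1 * n)) ?_
    intro p hp
    have h2 := Finset.card_biUnion_le_card_mul (Finset.univ : Finset (Cl n r p))
      (fun cl => (hcount p cl).1.toFinset) (d1 * n) (by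
        intro cl _
        have h3 := (hcount p cl).2
        rw [Set.ncard_eq_toFinset_card _ (hcount p cl).1] at h3
        exact h3)
    refine h2.trans (Nat.mul_le_mul_right _ ?_)
    rw [Finset.card_univ, card_ClW]
    exact Nat.pow_le_pow_left (hSP p hp) _
  have hXpos : 1 ≤ X ^ (((r : ℝ) + 1) / 2) := Real.one_le_rpow hX (by positivity)
  have hfin : (FS n X).Finite := by
    refine (F.finite_toSet.image Sigma.fst).subset ?_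
    intro K hK
    have hc1 : 0 < (𝒳 K).card := by
      have h1 := (h𝒳 K hK).1
      have h2 : (0 : ℝ) < ((𝒳 K).card : ℝ) := by linarith
      exact_mod_cast h2
    obtain ⟨x, hx⟩ := Finset.card_pos.1 hc1
    exact ⟨⟨K, x⟩, hsub ⟨K, x⟩ hK hx, rfl⟩
  refine ⟨hfin, ?_⟩
  have hsig : (hfin.toFinset.sigma 𝒳).card ≤ F.card := by
    apply Finset.card_le_card
    intro Q hQ
    rw [Finset.mem_sigma, Set.Finite.mem_toFinset] at hQ
    exact hsub Q hQ.1 hQ.2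
  rw [Finset.card_sigma] at hsig
  have h1 : ((FS n X).ncard : ℝ) * X ^ (((r : ℝ) + 1) / 2) ≤
      ∑ K ∈ hfin.toFinset, ((𝒳 K).card : ℝ) := by
    rw [Set.ncard_eq_toFinset_card _ hfin, ← nsmul_eq_mul]
    refine Finset.card_nsmul_le_sum _ _ _ ?_
    intro K hK
    rw [Set.Finite.mem_toFinset] at hK
    exact (h𝒳 K hK).1
  refine h1.trans ?_
  have h2 := hsig.trans hFcard
  calc ∑ K ∈ hfin.toFinset, ((𝒳 K).card : ℝ) = ((∑ K ∈ hfin.toFinset, (𝒳 K).card : ℕ) : ℝ) := by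
        push_cast; rfl
    _ ≤ _ := by exact_mod_cast h2

end NFW
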