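import Pool.Agent.Lib.NFU.Defs

/-!
# Number fields of degree `n` (MP_44a56e_nt), weighted version: definitions

Paper: paper90, paper90b with two changes. (W) In the pigeonhole step the coefficient of `Y^β` runs through an interval of
length `B R^(d-|β|)`; so the exponent `c > μ = D/s` (not `2 μ`) suffices. (M) Every field has at least `X^((r+1)/2)` tuples.
-/

set_option autoImplicit false

open MvPolynomial Module NumberField NFH NFU

namespace NFW

/-- The condition on the Hilbert functions that makes the fibre bound work. The data are the
number `r` of variables, the degree `D`, the multiplicity `s`, the exponent `c` and `κ`. -/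
def Grw (r D s κ d1 : ℕ) (c : ℝ) : Prop :=
  ∀ h : ℕ → ℕ, (∀ d, h d ≤ (d + 1) ^ r) →
    (∀ d ≤ d1, (h d : ℝ) *
        ((1 - (D : ℝ) / s / c) * d - (D * (r + 2) + (D : ℝ) / s * (κ + 1))) ≤
      (1 - (D : ℝ) / s / c) * ∑ e ∈ Finset.range d, (h e : ℝ)) → h d1 ≤ d1

/-- The degree of the product of the two determinants in the coefficients of the tuple. -/
noncomputable def dz (n m r k : ℕ) : ℕ := n * nj r k * dg m r k + n * n

/-- The factor of the size of the tuples. -/
noncomputable def sw (n m r k : ℕ) : ℕ := 2 * n * (2 * (n * (r + 1)) * dz n m r k)

end NFW
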