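import Mathlib

/-!
MP_44a56e_nt (weighted), module RealW (about 220 lines): from the weighted pigeonhole inequality to the inequality for the Hilbert function.

PROOF (compare Lib/NFU/RealU.lean; its combinatorial lemmas on blocks are reusable by copying). `lam = log_p R`, `0 ≤ lam ≤ 1/c` (`hpR`), `μ = D/s ≤ c`, `S_d = ∑_{e<d} h e`, `h = h d ≥ 1`, `S_d ≤ d h`, `log_p h ≤ κ` (`hub`, `hp0`). `d = 0`: clear. Let `G = ⌈d/D⌉`, `T = s G ≥ d/μ`.
Case 1: `p^T < 2 h R^d`. Then `d/μ ≤ T < 1 + κ + d/c` (`log_p 2 ≤ 1`), so `(1 - μ/c) d < μ (κ+1)`: the left side is `≤ 0 ≤` right side.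
Case 2: `p^T ≥ 2 h R^d`. `B = ⌈p^T/(h R^d)⌉ - 1`: `1 ≤ B`, `h B R^d < p^T`, `B ≥ p^T/(2 h R^d)`. `H` gives `h log_p B + lam S_d ≤ Σ`, `Σ = ∑_{t<T} h (min d (D(t/s+1)+Dr)) ≤ (1/μ) (S_d + D (r+2) h)` (as in RealU), `log_p B ≥ T - d lam - κ - 1`. So
`h (T - κ - 1) ≤ (1/μ) (S_d + D(r+2) h) + lam (d h - S_d) ≤ (1/μ)(S_d + D(r+2) h) + (1/c)(d h - S_d)`. Multiply by `μ`, `μ T ≥ d`: `h ((1-μ/c) d - D(r+2) - μ(κ+1)) ≤ (1-μ/c) S_d`.
-/

set_option autoImplicit false

namespace NFW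

private theorem ri_blk (f : ℕ → ℕ) (D : ℕ) : ∀ N : ℕ,
    ∑ e ∈ Finset.range (D * N), f e
      = ∑ q ∈ Finset.range N, ∑ j ∈ Finset.range D, f (D * q + j) := by
  intro N
  induction N with
  | zero => simp
  | succ N ih => rw [Nat.mul_succ, Finset.sum_range_add, ih, Finset.sum_range_succ]

private theorem ri_div (F : ℕ → ℕ) (s : ℕ) (hs : 1 ≤ s) (G : ℕ) :
    ∑ t ∈ Finset.range (s * G), F (t / s) = s * ∑ g ∈ Finset.range G, F g := by
  induction G with
  | zero => simp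
  | succ G ih =>
    rw [Nat.mul_succ, Finset.sum_range_add, ih, Finset.sum_range_succ, mul_add]
    congr 1
    have h1 : ∀ j ∈ Finset.range s, F ((s * G + j) / s) = F G := by
      intro j hj
      rw [Nat.mul_add_div (by omega), Nat.div_eq_of_lt (Finset.mem_range.mp hj), add_zero]
    rw [Finset.sum_congr rfl h1]
    simp

private theorem ri_comb (r D d G : ℕ) (h : ℕ → ℕ) (hmono : Monotone h)
    (hG1 : d ≤ D * G) (hG2 : D * G ≤ d + D) :
    D * ∑ g ∈ Finset.range G, h (min d (D * (g + 1) + D * r))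
      ≤ ∑ e ∈ Finset.range d, h e + D * (r + 2) * h d := by
  have h1 : ∑ e ∈ Finset.range (D * (r + 1 + G)), h (min d e)
      = ∑ q ∈ Finset.range (r + 1 + G), ∑ j ∈ Finset.range D, h (min d (D * q + j)) :=
    ri_blk (fun e => h (min d e)) D (r + 1 + G)
  have h2 : ∑ q ∈ Finset.range (r + 1 + G), D * h (min d (D * q))
      ≤ ∑ q ∈ Finset.range (r + 1 + G), ∑ j ∈ Finset.range D, h (min d (D * q + j)) := by
    refine Finset.sum_le_sum fun q _ => ?_
    have h3 : ∑ j ∈ Finset.range D, h (min d (D * q)) = D * h (min d (D * q)) := by simp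
    rw [← h3]
    exact Finset.sum_le_sum fun j _ => hmono (min_le_min le_rfl (by omega))
  have h4 : D * ∑ g ∈ Finset.range G, h (min d (D * (g + 1) + D * r))
      ≤ ∑ q ∈ Finset.range (r + 1 + G), D * h (min d (D * q)) := by
    rw [Finset.sum_range_add, Finset.mul_sum]
    have h5 : ∑ g ∈ Finset.range G, D * h (min d (D * (g + 1) + D * r))
        = ∑ g ∈ Finset.range G, D * h (min d (D * (r + 1 + g))) := by
      refine Finset.sum_congr rfl fun g _ => ?_
      have : D * (g + 1) + D * r = D * (r + 1 + g) := by ring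
      rw [this]
    rw [h5]
    exact Nat.le_add_left _ _
  have h6 : ∑ e ∈ Finset.range (D * (r + 1 + G)), h (min d e)
      ≤ ∑ e ∈ Finset.range d, h e + D * (r + 2) * h d := by
    have e1 : D * (r + 1 + G) = D * r + D + D * G := by ring
    have e2 : D * (r + 2) = D * r + D + D := by ring
    obtain ⟨k, hk⟩ : ∃ k, D * (r + 1 + G) = d + k := ⟨D * (r + 1 + G) - d, by omega⟩
    have hk2 : k ≤ D * (r + 2) := by omega
    rw [hk, Finset.sum_range_add]
    have h7 : ∑ e ∈ Finset.range d, h (min d e) = ∑ e ∈ Finset.range d, h e := by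
      refine Finset.sum_congr rfl fun e he => ?_
      rw [min_eq_right (Finset.mem_range.mp he).le]
    have h8 : ∑ j ∈ Finset.range k, h (min d (d + j)) = k * h d := by
      have h9 : ∀ j ∈ Finset.range k, h (min d (d + j)) = h d := by
        intro j _
        rw [min_eq_left (Nat.le_add_right d j)]
      rw [Finset.sum_congr rfl h9]
      simp
    rw [h7, h8]
    exact Nat.add_le_add_left (Nat.mul_le_mul_right _ hk2) _
  calc _ ≤ _ := h4
    _ ≤ _ := h2
    _ = _ := h1.symm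
    _ ≤ _ := h6

theorem ineq_realW (r D s d1 κ R : ℕ) (hD : 1 ≤ D) (hs : 1 ≤ s) (c : ℝ) (hc : 0 < c)
    (hcD : (D : ℝ) / s ≤ c) (hR : 1 ≤ R) (p : ℕ) (hp : 2 ≤ p) (hpR : (R : ℝ) ^ c ≤ (p : ℝ))
    (hp0 : (d1 + 1) ^ r ≤ p ^ κ) (h : ℕ → ℕ) (hmono : Monotone h) (h1 : ∀ d, 1 ≤ h d)
    (hub : ∀ d, h d ≤ (d + 1) ^ r)
    (H : ∀ d T B : ℕ, 1 ≤ B → (h d : ℝ) * B * (R : ℝ) ^ d < (p : ℝ) ^ T →
      B ^ h d * R ^ (∑ e ∈ Finset.range d, h e) ≤
        p ^ ∑ t ∈ Finset.range T, h (min d (D * (t / s + 1) + D * r)))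
    (d : ℕ) (hd : d ≤ d1) :
    (h d : ℝ) * ((1 - (D : ℝ) / s / c) * d - (D * (r + 2) + (D : ℝ) / s * (κ + 1))) ≤
      (1 - (D : ℝ) / s / c) * ∑ e ∈ Finset.range d, (h e : ℝ) := by
  have hD0 : (1 : ℝ) ≤ D := by exact_mod_cast hD
  have hs0 : (1 : ℝ) ≤ s := by exact_mod_cast hs
  have hh0 : (1 : ℝ) ≤ h d := by exact_mod_cast h1 d
  have hR0 : (1 : ℝ) ≤ R := by exact_mod_cast hR
  have hRp : (0 : ℝ) < R := by linarith
  -- the number of blocks
  obtain ⟨G, hG⟩ : ∃ G, G = (d + D - 1) / D := ⟨_, rfl⟩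
  have hG1 : d ≤ D * G := by
    have e := Nat.div_add_mod (d + D - 1) D
    have e2 := Nat.mod_lt (d + D - 1) (by omega : 0 < D)
    rw [← hG] at e
    omega
  have hG2 : D * G ≤ d + D := by
    have e := Nat.div_add_mod (d + D - 1) D
    rw [← hG] at e
    omega
  have hG1' : (d : ℝ) ≤ D * G := by exact_mod_cast hG1
  have hp1 : (1 : ℝ) < p := by exact_mod_cast (by omega : 1 < p)
  have hp0' : (0 : ℝ) < p := by linarith
  have hRd : (0 : ℝ) < (R : ℝ) ^ d := pow_pos hRp d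
  have hden : 0 < (h d : ℝ) * (R : ℝ) ^ d := by positivity
  obtain ⟨X, hX⟩ : ∃ X : ℝ, X = (p : ℝ) ^ (s * G) / ((h d : ℝ) * (R : ℝ) ^ d) := ⟨_, rfl⟩
  have hX0 : 0 < X := by rw [hX]; positivity
  have hXmul : (h d : ℝ) * X * (R : ℝ) ^ d = (p : ℝ) ^ (s * G) := by
    rw [hX]
    field_simp
  have hlp : 0 < Real.log p := Real.log_pos hp1
  have hlX : Real.log X = ((s * G : ℕ) : ℝ) * Real.log p - (Real.log (h d) + d * Real.log R) := by
    rw [hX, Real.log_div (by positivity) hden.ne', Real.log_mul (by linarith) hRd.ne',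
      Real.log_pow, Real.log_pow]
  have hlR : Real.log R ≤ Real.log p / c := by
    have h3 := Real.log_le_log (Real.rpow_pos_of_pos hRp c) hpR
    rw [Real.log_rpow hRp] at h3
    rw [le_div_iff₀ hc]
    linarith
  have hlR0 : 0 ≤ Real.log R := Real.log_nonneg hR0
  have hlh : Real.log (h d) ≤ κ * Real.log p := by
    rw [← Real.log_pow]
    refine Real.log_le_log (by linarith) ?_
    have h4 : h d ≤ p ^ κ := (hub d).trans ((Nat.pow_le_pow_left (by omega) r).trans hp0)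
    exact_mod_cast h4
  have hl2 : Real.log 2 ≤ Real.log p :=
    Real.log_le_log (by norm_num) (by exact_mod_cast hp)
  -- `μ / c`
  have hμ0 : (0 : ℝ) ≤ (D : ℝ) / s := by positivity
  have hμc0 : (0 : ℝ) ≤ (D : ℝ) / s / c := by positivity
  have hμc1 : (D : ℝ) / s / c ≤ 1 := by
    rw [div_le_one hc]
    exact hcD
  have hS0 : (0 : ℝ) ≤ ∑ e ∈ Finset.range d, (h e : ℝ) := by positivity
  have hSd : ∑ e ∈ Finset.range d, (h e : ℝ) ≤ d * h d := by
    calc ∑ e ∈ Finset.range d, (h e : ℝ) ≤ ∑ _e ∈ Finset.range d, (h d : ℝ) := by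
          refine Finset.sum_le_sum fun e he => ?_
          exact_mod_cast hmono (Finset.mem_range.mp he).le
      _ = d * h d := by simp
  have hsG : (D : ℝ) / s * ((s : ℝ) * G) = D * G := by field_simp
  rcases lt_or_ge X 2 with hX2 | hX2
  · -- Case 1
    have hlX2 : Real.log X ≤ Real.log 2 := Real.log_le_log hX0 hX2.le
    have h5 : ((s : ℝ) * G) * Real.log p ≤ (1 + κ + d / c) * Real.log p := by
      have h7 : (d : ℝ) * Real.log R ≤ d * (Real.log p / c) :=
        mul_le_mul_of_nonneg_left hlR (by positivity)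
      have h8 : (d : ℝ) * (Real.log p / c) = d / c * Real.log p := by ring
      rw [h8] at h7
      rw [hlX] at hlX2
      push_cast at hlX2
      linarith
    have h6 : (s : ℝ) * G ≤ 1 + κ + d / c := le_of_mul_le_mul_right h5 hlp
    have h7 := mul_le_mul_of_nonneg_left h6 hμ0
    rw [hsG] at h7
    have h8 : (D : ℝ) / s * (1 + κ + d / c) = (D : ℝ) / s * (κ + 1) + (D : ℝ) / s / c * d := by
      ring
    rw [h8] at h7
    have h9 : (1 - (D : ℝ) / s / c) * d - (D * (r + 2) + (D : ℝ) / s * (κ + 1)) ≤ 0 := by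
      have h10 : (0 : ℝ) ≤ (D : ℝ) * (r + 2) := by positivity
      linarith
    calc (h d : ℝ) * ((1 - (D : ℝ) / s / c) * d - (D * (r + 2) + (D : ℝ) / s * (κ + 1))) ≤ 0 :=
          mul_nonpos_of_nonneg_of_nonpos (by linarith) h9
      _ ≤ _ := mul_nonneg (by linarith) hS0
  -- Case 2
  obtain ⟨B, hB⟩ : ∃ B : ℕ, B = ⌈X⌉₊ - 1 := ⟨_, rfl⟩
  have hceil : 2 ≤ ⌈X⌉₊ := by
    have : (1 : ℝ) < ⌈X⌉₊ := by
      have := Nat.le_ceil X
      linarith
    have : 1 < ⌈X⌉₊ := by exact_mod_cast this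
    omega
  have hB1 : B + 1 = ⌈X⌉₊ := by omega
  have hBpos : 1 ≤ B := by omega
  have hBX : (B : ℝ) < X := by
    have h2 := Nat.ceil_lt_add_one hX0.le
    rw [← hB1] at h2
    push_cast at h2
    linarith
  have hXB : X ≤ 2 * (B : ℝ) := by
    have h2 := Nat.le_ceil X
    rw [← hB1] at h2
    push_cast at h2
    linarith
  have hB0 : (0 : ℝ) < B := by
    have : (1 : ℝ) ≤ B := by exact_mod_cast hBpos
    linarith
  have hH := H d (s * G) B hBpos (by
    rw [← hXmul]
    refine mul_lt_mul_of_pos_right ?_ hRd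
    exact mul_lt_mul_of_pos_left hBX (by linarith))
  obtain ⟨S, hS⟩ : ∃ S : ℕ, S = ∑ g ∈ Finset.range G, h (min d (D * (g + 1) + D * r)) := ⟨_, rfl⟩
  have hSig : ∑ t ∈ Finset.range (s * G), h (min d (D * (t / s + 1) + D * r)) = s * S := by
    rw [hS]
    exact ri_div (fun t => h (min d (D * (t + 1) + D * r))) s hs G
  rw [hSig] at hH
  have hH2 : (B : ℝ) ^ h d * (R : ℝ) ^ (∑ e ∈ Finset.range d, h e) ≤ (p : ℝ) ^ (s * S) := by
    exact_mod_cast hH
  have hlog := Real.log_le_log (by positivity) hH2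
  rw [Real.log_mul (by positivity) (by positivity), Real.log_pow, Real.log_pow,
    Real.log_pow] at hlog
  have hlB : Real.log X - Real.log 2 ≤ Real.log B := by
    have h3 := Real.log_le_log hX0 hXB
    rw [Real.log_mul (by norm_num) hB0.ne'] at h3
    linarith
  -- dividing by the logarithm
  have hmain : (h d : ℝ) * ((s : ℝ) * G - κ - 1) ≤
      (s : ℝ) * S + 1 / c * (d * h d - ∑ e ∈ Finset.range d, (h e : ℝ)) := by
    have h5 : (h d : ℝ) * ((s : ℝ) * G - κ - 1) * Real.log p ≤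
        ((s : ℝ) * S + 1 / c * (d * h d - ∑ e ∈ Finset.range d, (h e : ℝ))) * Real.log p := by
      have h6 : ((s : ℝ) * G - κ - 1) * Real.log p - d * Real.log R ≤ Real.log B := by
        rw [hlX] at hlB
        push_cast at hlB
        linarith
      have h7 := mul_le_mul_of_nonneg_left h6 (show (0 : ℝ) ≤ h d by linarith)
      have h8 : (d * (h d : ℝ) - ∑ e ∈ Finset.range d, (h e : ℝ)) * Real.log R ≤
          (d * (h d : ℝ) - ∑ e ∈ Finset.range d, (h e : ℝ)) * (Real.log p / c) :=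
        mul_le_mul_of_nonneg_left hlR (by linarith)
      have h9 : (h d : ℝ) * Real.log B + (∑ e ∈ Finset.range d, (h e : ℝ)) * Real.log R ≤
          (s : ℝ) * S * Real.log p := by
        push_cast at hlog
        linarith
      calc (h d : ℝ) * ((s : ℝ) * G - κ - 1) * Real.log p
          = (h d : ℝ) * (((s : ℝ) * G - κ - 1) * Real.log p - d * Real.log R)
            + d * (h d : ℝ) * Real.log R := by ring
        _ ≤ (h d : ℝ) * Real.log B + d * (h d : ℝ) * Real.log R := by linarith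
        _ ≤ (s : ℝ) * S * Real.log p +
            (d * (h d : ℝ) - ∑ e ∈ Finset.range d, (h e : ℝ)) * Real.log R := by
              rw [sub_mul]
              linarith
        _ ≤ (s : ℝ) * S * Real.log p +
            (d * (h d : ℝ) - ∑ e ∈ Finset.range d, (h e : ℝ)) * (Real.log p / c) := by linarith
        _ = _ := by ring
    exact le_of_mul_le_mul_right h5 hlp
  have hcomb := ri_comb r D d G h hmono hG1 hG2
  rw [← hS] at hcomb
  have hcomb' : (D : ℝ) * S ≤ ∑ e ∈ Finset.range d, (h e : ℝ) + D * (r + 2) * h d := by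
    exact_mod_cast hcomb
  -- final computation
  have h10 := mul_le_mul_of_nonneg_left hmain hμ0
  have h11 : (D : ℝ) / s * ((s : ℝ) * S + 1 / c * (d * h d - ∑ e ∈ Finset.range d, (h e : ℝ)))
      = D * S + (D : ℝ) / s / c * (d * h d - ∑ e ∈ Finset.range d, (h e : ℝ)) := by
    field_simp
  have h12 : (D : ℝ) / s * ((h d : ℝ) * ((s : ℝ) * G - κ - 1))
      = (h d : ℝ) * ((D : ℝ) * G - D / s * (κ + 1)) := by
    field_simp
    ring
  rw [h11, h12] at h10
  have h13 : (h d : ℝ) * ((d : ℝ) - D / s * (κ + 1))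
      ≤ (h d : ℝ) * ((D : ℝ) * G - D / s * (κ + 1)) :=
    mul_le_mul_of_nonneg_left (by linarith) (by linarith)
  have h14 : (h d : ℝ) * ((1 - (D : ℝ) / s / c) * d - (D * (r + 2) + (D : ℝ) / s * (κ + 1)))
      = (h d : ℝ) * ((d : ℝ) - D / s * (κ + 1)) - D * (r + 2) * h d
        - (D : ℝ) / s / c * (d * h d) := by
    ring
  have h15 : (1 - (D : ℝ) / s / c) * ∑ e ∈ Finset.range d, (h e : ℝ)
      = ∑ e ∈ Finset.range d, (h e : ℝ)
        - (D : ℝ) / s / c * ∑ e ∈ Finset.range d, (h e : ℝ) := by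
    ring
  have h16 : (D : ℝ) / s / c * (d * h d - ∑ e ∈ Finset.range d, (h e : ℝ))
      = (D : ℝ) / s / c * (d * h d) - (D : ℝ) / s / c * ∑ e ∈ Finset.range d, (h e : ℝ) := by
    ring
  rw [h16] at h10
  rw [h14, h15]
  linarith

end NFW
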