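import Pool.Agent.Lib.NFH.Defs

/-!
MP_44a56e_nt (weighted), module SmallW (about 120 lines): a small value divisible by `p ^ T` vanishes.

PROOF. As `NFH.small` (Lib/NFH/Small.lean, copy it, its auxiliary lemmas are private). `|φ (F(x))| ≤ ∑_{β ∈ supp} B R^(d-|β|) R^(|β|) = card supp * B * R^d < p^T` (`|β| ≤ d` on the support).
-/

set_option autoImplicit false

open MvPolynomial Module NumberField NFH

namespace NFW

private theorem dvd_of_pow {r : ℕ} {A : Type*} [CommRing A] (x : Fin r → A) (p : A)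
    (a : Ideal (PZ r)) (ha : ∀ F ∈ a, p ∣ aeval x F) (T : ℕ) (F : PZ r) (hF : F ∈ a ^ T) :
    p ^ T ∣ aeval x F := by
  have h1 : Ideal.map (aeval x : PZ r →ₐ[ℤ] A).toRingHom a ≤ Ideal.span {p} := by
    rw [Ideal.map_le_iff_le_comap]
    intro G hG
    rw [Ideal.mem_comap, Ideal.mem_span_singleton]
    exact ha G hG
  have h2 : (aeval x : PZ r →ₐ[ℤ] A).toRingHom F ∈
      Ideal.map (aeval x : PZ r →ₐ[ℤ] A).toRingHom (a ^ T) := Ideal.mem_map_of_mem _ hF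
  rw [Ideal.map_pow] at h2
  have h3 := Ideal.pow_right_mono h1 T h2
  rw [Ideal.span_singleton_pow, Ideal.mem_span_singleton] at h3
  exact h3

private theorem norm_bd {r : ℕ} {A : Type*} [CommRing A] (x : Fin r → A) (ψ : A →+* ℂ) (R : ℕ)
    (hx : ∀ j, ‖ψ (x j)‖ ≤ (R : ℝ)) (d B : ℕ) (F : PZ r) (hd : F.totalDegree ≤ d)
    (hc : ∀ β, |F.coeff β| ≤ (B : ℤ) * (R : ℤ) ^ (d - β.degree)) :
    ‖ψ (aeval x F)‖ ≤ (F.support.card : ℝ) * B * (R : ℝ) ^ d := by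
  have h1 : ψ (aeval x F) = ∑ β ∈ F.support, ((F.coeff β : ℤ) : ℂ) * ∏ j, ψ (x j) ^ β j := by
    rw [aeval_def, eval₂_eq', map_sum]
    refine Finset.sum_congr rfl fun β _ => ?_
    rw [map_mul, map_prod]
    congr 1
    · simp
    · refine Finset.prod_congr rfl fun j _ => ?_
      rw [map_pow]
  rw [h1]
  calc ‖∑ β ∈ F.support, ((F.coeff β : ℤ) : ℂ) * ∏ j, ψ (x j) ^ β j‖
      ≤ ∑ β ∈ F.support, ‖((F.coeff β : ℤ) : ℂ) * ∏ j, ψ (x j) ^ β j‖ := norm_sum_le _ _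
    _ ≤ ∑ β ∈ F.support, (B : ℝ) * (R : ℝ) ^ d := by
        refine Finset.sum_le_sum fun β hβ => ?_
        have h3 := le_totalDegree hβ
        have h4 : (β.sum fun _ e => e) = ∑ j : Fin r, β j :=
          Finsupp.sum_fintype _ _ (fun _ => rfl)
        have h5 : β.degree = ∑ j : Fin r, β j := Finsupp.degree_eq_sum β
        have h6 : β.degree ≤ d := by omega
        rw [norm_mul, norm_prod]
        calc ‖((F.coeff β : ℤ) : ℂ)‖ * ∏ j, ‖ψ (x j) ^ β j‖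
            ≤ ((B : ℝ) * (R : ℝ) ^ (d - β.degree)) * (R : ℝ) ^ β.degree := by
              refine mul_le_mul ?_ ?_ (Finset.prod_nonneg fun j _ => norm_nonneg _)
                (by positivity)
              · rw [Complex.norm_intCast]
                have := hc β
                have h2 : ((|F.coeff β| : ℤ) : ℝ) ≤
                    (((B : ℤ) * (R : ℤ) ^ (d - β.degree) : ℤ) : ℝ) := by exact_mod_cast this
                simpa using h2
              · calc ∏ j, ‖ψ (x j) ^ β j‖ ≤ ∏ j : Fin r, (R : ℝ) ^ β j := by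
                      refine Finset.prod_le_prod (fun j _ => norm_nonneg _) fun j _ => ?_
                      rw [norm_pow]
                      exact pow_le_pow_left₀ (norm_nonneg _) (hx j) _
                  _ = (R : ℝ) ^ (∑ j : Fin r, β j) := Finset.prod_pow_eq_pow_sum _ _ _
                  _ ≤ (R : ℝ) ^ β.degree := by rw [h5]
          _ = (B : ℝ) * (R : ℝ) ^ d := by
              rw [mul_assoc, ← pow_add, Nat.sub_add_cancel h6]
    _ = (F.support.card : ℝ) * B * (R : ℝ) ^ d := by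
        rw [Finset.sum_const, nsmul_eq_mul]
        ring

private theorem eq_zero_of_norm_lt {K : Type*} [Field K] [NumberField K] (w : 𝓞 K)
    (h : ∀ φ : K →+* ℂ, ‖φ (w : K)‖ < 1) : w = 0 := by
  classical
  by_contra hw
  have h1 : Algebra.norm ℤ w ≠ 0 := Algebra.norm_ne_zero_iff.mpr hw
  have h2 : (1 : ℝ) ≤ |((Algebra.norm ℤ w : ℤ) : ℝ)| := by
    have : (1 : ℤ) ≤ |Algebra.norm ℤ w| := Int.one_le_abs h1
    exact_mod_cast this
  have h3 := Algebra.norm_eq_prod_embeddings ℚ ℂ (w : K)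
  have h4 : ((Algebra.norm ℤ w : ℤ) : ℚ) = Algebra.norm ℚ (w : K) := Algebra.coe_norm_int w
  rw [← h4] at h3
  have h5 : ‖((Algebra.norm ℤ w : ℤ) : ℂ)‖ = ∏ σ : K →ₐ[ℚ] ℂ, ‖σ (w : K)‖ := by
    rw [← norm_prod, ← h3]
    simp
  rw [Complex.norm_intCast] at h5
  have h6 : ∏ σ : K →ₐ[ℚ] ℂ, ‖σ (w : K)‖ < 1 := by
    have hne : (Finset.univ : Finset (K →ₐ[ℚ] ℂ)).Nonempty := by
      have : Nonempty (K →ₐ[ℚ] ℂ) := ⟨IsAlgClosed.lift⟩
      exact Finset.univ_nonempty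
    obtain ⟨σ0, hσ0⟩ := hne
    rw [← Finset.mul_prod_erase _ _ hσ0]
    have h7 : ∏ σ ∈ Finset.univ.erase σ0, ‖σ (w : K)‖ ≤ 1 :=
      Finset.prod_le_one (fun _ _ => norm_nonneg _) (fun σ _ => (h σ.toRingHom).le)
    have h8 : ‖σ0 (w : K)‖ < 1 := h σ0.toRingHom
    have h9 : 0 ≤ ∏ σ ∈ Finset.univ.erase σ0, ‖σ (w : K)‖ :=
      Finset.prod_nonneg fun _ _ => norm_nonneg _
    have h10 : 0 ≤ ‖σ0 (w : K)‖ := norm_nonneg _
    nlinarith
  linarith

theorem smallW {K : Type*} [Field K] [NumberField K] {r : ℕ} (x : Fin r → 𝓞 K) (R : ℕ)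
    (hR : 1 ≤ R) (hx : ∀ (φ : K →+* ℂ) (j : Fin r), ‖φ (x j : K)‖ ≤ (R : ℝ)) (p : ℕ)
    (hp : 0 < p) (a : Ideal (PZ r)) (ha : ∀ F ∈ a, (p : 𝓞 K) ∣ aeval x F) (d T B : ℕ) (F : PZ r)
    (hF : F ∈ a ^ T ⊔ kerI x) (hd : F.totalDegree ≤ d)
    (hc : ∀ β, |F.coeff β| ≤ (B : ℤ) * (R : ℤ) ^ (d - β.degree))
    (hlt : (F.support.card : ℝ) * B * (R : ℝ) ^ d < (p : ℝ) ^ T) : aeval x F = 0 := by
  obtain ⟨F1, hF1, F2, hF2, hF12⟩ := Submodule.mem_sup.mp hF
  have h1 : aeval x F = aeval x F1 := by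
    rw [← hF12, map_add]
    have : aeval x F2 = 0 := hF2
    rw [this, add_zero]
  obtain ⟨w, hw⟩ := dvd_of_pow x (p : 𝓞 K) a ha T F1 hF1
  have hwz : aeval x F = (p : 𝓞 K) ^ T * w := by rw [h1, hw]
  have hpT : (0 : ℝ) < (p : ℝ) ^ T := by positivity
  have hw0 : w = 0 := by
    refine eq_zero_of_norm_lt w fun φ => ?_
    have h2 := norm_bd x (φ.comp (algebraMap (𝓞 K) K)) R (fun j => hx φ j) d B F hd hc
    rw [hwz] at h2
    have h3 : (φ.comp (algebraMap (𝓞 K) K)) ((p : 𝓞 K) ^ T * w) = (p : ℂ) ^ T * φ (w : K) := by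
      rw [map_mul, map_pow]
      simp
    rw [h3, norm_mul, norm_pow, Complex.norm_natCast] at h2
    have h4 : (p : ℝ) ^ T * ‖φ (w : K)‖ < (p : ℝ) ^ T * 1 := by linarith
    exact lt_of_mul_lt_mul_left h4 hpT.le
  rw [hwz, hw0, mul_zero]

end NFW
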