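import Mathlib

/-!
MP_44a56e_nt (weighted), module GrowW (about 80 lines): boundedness.

PROOF. `S_d = ∑_{e<d} h e`. For `d0 ≤ d ≤ d1`: `η d - A ≥ η d0 - A ≥ η > 0` and `h d (η d - A) ≤ η S_d`, so `S_{d+1} (η d - A) = S_d (η d - A) + h d (η d - A) ≤ S_d (η (d+1) - A)`. By induction `S_d (η d0 - A) ≤ S_{d0} (η d - A)` for `d0 ≤ d ≤ d1`. So
`h d1 (η d1 - A) ≤ η S_{d1} ≤ η S_{d0} (η d1 - A)/(η d0 - A) ≤ S_{d0} (η d1 - A)`, `h d1 ≤ S_{d0} ≤ ∑_{e<d0} (e+1)^r ≤ d0 * d0^r = d1`. (`d0 ≤ d1 = d0^(r+1)` as `d0 ≥ 1`.)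
-/

set_option autoImplicit false

namespace NFW

theorem growthW (η A : ℝ) (hη : 0 < η) (hA0 : 0 ≤ A) (r d0 : ℕ) (hA : A + η ≤ η * d0)
    (h : ℕ → ℕ) (hub : ∀ d, h d ≤ (d + 1) ^ r)
    (hrec : ∀ d ≤ d0 ^ (r + 1),
      (h d : ℝ) * (η * d - A) ≤ η * ∑ e ∈ Finset.range d, (h e : ℝ)) :
    h (d0 ^ (r + 1)) ≤ d0 ^ (r + 1) := by
  have hd0 : 1 ≤ d0 := by
    by_contra hc
    have h0 : d0 = 0 := by omega
    rw [h0, Nat.cast_zero, mul_zero] at hA
    linarith
  have hd1 : d0 ≤ d0 ^ (r + 1) := Nat.le_self_pow (by omega) d0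
  have ha0 : η ≤ η * d0 - A := by linarith
  have hpos : ∀ d : ℕ, d0 ≤ d → 0 < η * d - A := by
    intro d hd
    have h1 : (d0 : ℝ) ≤ d := by exact_mod_cast hd
    have h2 : η * d0 ≤ η * d := mul_le_mul_of_nonneg_left h1 hη.le
    linarith
  have key : ∀ k : ℕ, d0 + k ≤ d0 ^ (r + 1) →
      (∑ e ∈ Finset.range (d0 + k), (h e : ℝ)) * (η * d0 - A) ≤
        (∑ e ∈ Finset.range d0, (h e : ℝ)) * (η * ((d0 + k : ℕ) : ℝ) - A) := by
    intro k
    induction k with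
    | zero => intro _; simp
    | succ k ih =>
      intro hk
      have h1 := ih (by omega)
      have h2 := hrec (d0 + k) (by omega)
      have hp := hpos (d0 + k) (by omega)
      have hp' := hpos (d0 + (k + 1)) (by omega)
      have e1 : (((d0 + (k + 1) : ℕ)) : ℝ) = ((d0 + k : ℕ) : ℝ) + 1 := by push_cast; ring
      have e2 : ∑ e ∈ Finset.range (d0 + (k + 1)), (h e : ℝ) =
          ∑ e ∈ Finset.range (d0 + k), (h e : ℝ) + h (d0 + k) := by
        rw [← add_assoc, Finset.sum_range_succ]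
      rw [e1] at hp' ⊢
      rw [e2]
      set S := ∑ e ∈ Finset.range (d0 + k), (h e : ℝ) with hS
      set S0 := ∑ e ∈ Finset.range d0, (h e : ℝ) with hS0
      set x := ((d0 + k : ℕ) : ℝ) with hx
      have h3 : (S + h (d0 + k)) * (η * x - A) ≤ S * (η * (x + 1) - A) := by nlinarith
      have h4 : (S + h (d0 + k)) * (η * d0 - A) * (η * x - A) ≤
          S0 * (η * (x + 1) - A) * (η * x - A) := by
        calc (S + h (d0 + k)) * (η * d0 - A) * (η * x - A)
            = (S + h (d0 + k)) * (η * x - A) * (η * d0 - A) := by ring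
          _ ≤ S * (η * (x + 1) - A) * (η * d0 - A) :=
              mul_le_mul_of_nonneg_right h3 (by linarith)
          _ = S * (η * d0 - A) * (η * (x + 1) - A) := by ring
          _ ≤ S0 * (η * x - A) * (η * (x + 1) - A) := mul_le_mul_of_nonneg_right h1 hp'.le
          _ = S0 * (η * (x + 1) - A) * (η * x - A) := by ring
      exact le_of_mul_le_mul_right h4 hp
  have h5 := key (d0 ^ (r + 1) - d0) (by omega)
  rw [Nat.add_sub_cancel' hd1] at h5
  have h6 := hrec (d0 ^ (r + 1)) le_rfl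
  have hp1 := hpos (d0 ^ (r + 1)) hd1
  set d1 := d0 ^ (r + 1) with hd1def
  set S0 := ∑ e ∈ Finset.range d0, (h e : ℝ) with hS0
  set S1 := ∑ e ∈ Finset.range d1, (h e : ℝ) with hS1
  have h7 : (h d1 : ℝ) * (η * d0 - A) * (η * d1 - A) ≤ η * S0 * (η * d1 - A) := by
    calc (h d1 : ℝ) * (η * d0 - A) * (η * d1 - A)
        = (h d1 : ℝ) * (η * d1 - A) * (η * d0 - A) := by ring
      _ ≤ η * S1 * (η * d0 - A) := mul_le_mul_of_nonneg_right h6 (by linarith)
      _ = η * (S1 * (η * d0 - A)) := by ring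
      _ ≤ η * (S0 * (η * d1 - A)) := mul_le_mul_of_nonneg_left h5 hη.le
      _ = η * S0 * (η * d1 - A) := by ring
  have h8 := le_of_mul_le_mul_right h7 hp1
  have h9 : η * (h d1 : ℝ) ≤ η * S0 := by
    calc η * (h d1 : ℝ) = h d1 * η := mul_comm _ _
      _ ≤ h d1 * (η * d0 - A) := mul_le_mul_of_nonneg_left ha0 (Nat.cast_nonneg _)
      _ ≤ η * S0 := h8
  have h10 : (h d1 : ℝ) ≤ S0 := le_of_mul_le_mul_left h9 hη
  have h11 : S0 = ((∑ e ∈ Finset.range d0, h e : ℕ) : ℝ) := by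
    rw [hS0]
    push_cast
    rfl
  rw [h11] at h10
  have h12 : h d1 ≤ ∑ e ∈ Finset.range d0, h e := by exact_mod_cast h10
  calc h d1 ≤ ∑ e ∈ Finset.range d0, h e := h12
    _ ≤ ∑ _e ∈ Finset.range d0, d0 ^ r := by
        refine Finset.sum_le_sum fun e he => (hub e).trans ?_
        exact Nat.pow_le_pow_left (Finset.mem_range.1 he) r
    _ = d1 := by
        rw [Finset.sum_const, Finset.card_range, smul_eq_mul, hd1def, pow_succ, mul_comm]

end NFW
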