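import Pool.Agent.Lib.NFW.Defs
import Pool.Agent.Lib.NFW.GrowW

/-!
MP_44a56e_nt (weighted), module ParW (about 130 lines): the choice of the parameters (compare Lib/NFU/Par.lean).

PROOF. `c = m+ε`. `t ≥ 1` with `2 m ≤ ε t`; `η0 = (ε/2)/(m+ε) > 0`; `M ≥ 2` with `(3 m (t+1) + 8 m)/η0 + 1 ≤ M`. Let `ρ = r+1`, `k = t ρ - 1`, `s = k+1 = tρ`, `D = dg m r k + 1 = ρ(m-1) + m(tρ-1) + 1 ≤ m (t+1) ρ`, `μ = D/s ≤ m + m/t ≤ m + ε/2` and `≤ 2m`; `η = 1 - μ/c ≥ η0`. First statement: `μ ≤ m+ε/2 ≤ m+ε`.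
`κ = 3 ρ^2`, `A = D (ρ+2) + μ (κ+1) ≤ 3 m (t+1) ρ^2 + 8 m ρ^2` (`ρ + 2 ≤ 3ρ`, `κ + 1 ≤ 4 ρ^2`). `d0 = M ρ^2`: `A + η ≤ η d0` because `A ≤ η0 (M-1) ρ^2 ≤ η (M-1) ρ^2`, `η ≤ η ρ^2`. `growthW` with `r := ρ`.
Third: `d0 ≥ 2`, `d0^(ρ+1) + 1 ≤ d0^(ρ+2)`, so `(..)^ρ ≤ d0^(ρ(ρ+2)) ≤ d0^(3ρ^2) ≤ p^(3ρ^2)`.
-/

set_option autoImplicit false

open NFU

namespace NFW

theorem parW_nat (ρ d0 p : ℕ) (hρ : 1 ≤ ρ) (hd0 : 2 ≤ d0) (hp : d0 ≤ p) :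
    (d0 ^ (ρ + 1) + 1) ^ ρ ≤ p ^ (3 * ρ ^ 2) := by
  have h1 : 1 ≤ d0 ^ (ρ + 1) := Nat.one_le_pow _ _ (by omega)
  have h2 : d0 ^ (ρ + 1) + 1 ≤ d0 ^ (ρ + 2) := by
    calc d0 ^ (ρ + 1) + 1 ≤ 2 * d0 ^ (ρ + 1) := by omega
      _ ≤ d0 * d0 ^ (ρ + 1) := Nat.mul_le_mul_right _ hd0
      _ = d0 ^ (ρ + 2) := by ring
  calc (d0 ^ (ρ + 1) + 1) ^ ρ ≤ (d0 ^ (ρ + 2)) ^ ρ := Nat.pow_le_pow_left h2 _
    _ = d0 ^ ((ρ + 2) * ρ) := by rw [← pow_mul]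
    _ ≤ d0 ^ (3 * ρ ^ 2) := by
        apply Nat.pow_le_pow_right (by omega)
        have h3 : ρ + 2 ≤ 3 * ρ := by omega
        calc (ρ + 2) * ρ ≤ (3 * ρ) * ρ := Nat.mul_le_mul_right _ h3
          _ = 3 * ρ ^ 2 := by ring
    _ ≤ p ^ (3 * ρ ^ 2) := Nat.pow_le_pow_left hp _

theorem parW (m : ℕ) (hm : 2 ≤ m) (ε : ℝ) (hε : 0 < ε) : ∃ t M : ℕ, 1 ≤ t ∧ 2 ≤ M ∧
    ∀ r : ℕ, ((dg m r (t * (r + 1) - 1) + 1 : ℕ) : ℝ) / ((t * (r + 1) - 1 + 1 : ℕ) : ℝ) ≤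
        (m : ℝ) + ε ∧
      NFW.Grw (r + 1) (dg m r (t * (r + 1) - 1) + 1) (t * (r + 1) - 1 + 1) (3 * (r + 1) ^ 2)
        ((M * (r + 1) ^ 2) ^ (r + 1 + 1)) ((m : ℝ) + ε) ∧
      ∀ p : ℕ, M * (r + 1) ^ 2 ≤ p →
        ((M * (r + 1) ^ 2) ^ (r + 1 + 1) + 1) ^ (r + 1) ≤ p ^ (3 * (r + 1) ^ 2) := by
  have hmR : (2 : ℝ) ≤ m := by exact_mod_cast hm
  have hc : (0 : ℝ) < m + ε := by positivity
  set η0 : ℝ := (ε / 2) / (m + ε) with hη0def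
  have hη0 : 0 < η0 := by positivity
  -- the choice of `t`
  obtain ⟨t, ht1, ht⟩ : ∃ t : ℕ, 1 ≤ t ∧ 2 * (m : ℝ) ≤ ε * t := by
    refine ⟨⌈2 * (m : ℝ) / ε⌉₊ + 1, by omega, ?_⟩
    have h := Nat.le_ceil (2 * (m : ℝ) / ε)
    rw [div_le_iff₀ hε] at h
    push_cast
    nlinarith
  obtain ⟨M, hM2, hM⟩ : ∃ M : ℕ, 2 ≤ M ∧ 3 * (m : ℝ) * (t + 1) + 8 * m ≤ η0 * (M - 1) := by
    refine ⟨⌈(3 * (m : ℝ) * (t + 1) + 8 * m) / η0⌉₊ + 2, by omega, ?_⟩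
    have h := Nat.le_ceil ((3 * (m : ℝ) * (t + 1) + 8 * m) / η0)
    rw [div_le_iff₀ hη0] at h
    push_cast
    nlinarith
  refine ⟨t, M, ht1, hM2, fun r => ?_⟩
  have ht1R : (1 : ℝ) ≤ t := by exact_mod_cast ht1
  have hM2R : (2 : ℝ) ≤ M := by exact_mod_cast hM2
  set ρ : ℕ := r + 1 with hρdef
  have hρ1 : 1 ≤ ρ := by omega
  have hρ1R : (1 : ℝ) ≤ ρ := by exact_mod_cast hρ1
  have hρ2R : (1 : ℝ) ≤ (ρ : ℝ) ^ 2 := one_le_pow₀ hρ1R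
  have htρ : 1 ≤ t * ρ := Nat.mul_pos ht1 hρ1
  have hs : ((t * ρ - 1 + 1 : ℕ) : ℝ) = t * ρ := by
    rw [Nat.sub_add_cancel htρ]; push_cast; ring
  have hD : ((dg m r (t * ρ - 1) + 1 : ℕ) : ℝ) = ρ * (m - 1) + m * (t * ρ - 1) + 1 := by
    unfold dg
    rw [← hρdef]
    push_cast [Nat.cast_sub (show 1 ≤ m by omega), Nat.cast_sub htρ]
    ring
  set D : ℕ := dg m r (t * ρ - 1) + 1 with hDdef
  have hspos : (0 : ℝ) < t * ρ := by positivity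
  have hDle : (D : ℝ) ≤ m * (t + 1) * ρ := by
    rw [hD]; nlinarith
  have hDs1 : (D : ℝ) / (t * ρ) ≤ m + ε / 2 := by
    rw [div_le_iff₀ hspos]
    nlinarith
  have hDs2 : (D : ℝ) / (t * ρ) ≤ 2 * m := by
    rw [div_le_iff₀ hspos]
    have : (m : ℝ) * ρ ≤ m * ρ * t := le_mul_of_one_le_right (by positivity) ht1R
    nlinarith
  have hη : η0 ≤ 1 - (D : ℝ) / ((t * ρ - 1 + 1 : ℕ) : ℝ) / (m + ε) := by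
    rw [hs]
    have h2 : (D : ℝ) / (t * ρ) / (m + ε) ≤ 1 - η0 := by
      rw [div_le_iff₀ hc]
      have h3 : (1 - η0) * (m + ε) = m + ε / 2 := by
        rw [hη0def]; field_simp; ring
      rw [h3]; exact hDs1
    linarith
  refine ⟨?_, ?_, fun p hp => ?_⟩
  · rw [hs]; linarith
  · intro h hub hrec
    have hD0 : (0 : ℝ) ≤ D := Nat.cast_nonneg _
    have hμ0 : (0 : ℝ) ≤ (D : ℝ) / (t * ρ) := by positivity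
    have hA : ((D : ℝ) * ((ρ : ℝ) + 2) +
        (D : ℝ) / ((t * ρ - 1 + 1 : ℕ) : ℝ) * (((3 * ρ ^ 2 : ℕ) : ℝ) + 1)) +
        (1 - (D : ℝ) / ((t * ρ - 1 + 1 : ℕ) : ℝ) / (m + ε)) ≤
        (1 - (D : ℝ) / ((t * ρ - 1 + 1 : ℕ) : ℝ) / (m + ε)) * ((M * ρ ^ 2 : ℕ) : ℝ) := by
      generalize 1 - (D : ℝ) / ((t * ρ - 1 + 1 : ℕ) : ℝ) / (m + ε) = η at hη ⊢
      rw [hs]
      push_cast
      have e1 : (D : ℝ) * ((ρ : ℝ) + 2) ≤ (m * (t + 1) * ρ) * (3 * ρ) :=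
        mul_le_mul hDle (by linarith) (by positivity) (by positivity)
      have e2 : (D : ℝ) / (t * ρ) * (3 * (ρ : ℝ) ^ 2 + 1) ≤ (2 * m) * (4 * (ρ : ℝ) ^ 2) :=
        mul_le_mul hDs2 (by linarith) (by positivity) (by positivity)
      have e3 : (3 * (m : ℝ) * (t + 1) + 8 * m) * (ρ : ℝ) ^ 2 ≤ (η0 * (M - 1)) * (ρ : ℝ) ^ 2 :=
        mul_le_mul_of_nonneg_right hM (by positivity)
      have e4 : (η0 * (M - 1)) * (ρ : ℝ) ^ 2 ≤ (η * (M - 1)) * (ρ : ℝ) ^ 2 :=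
        mul_le_mul_of_nonneg_right (mul_le_mul_of_nonneg_right hη (by linarith)) (by positivity)
      have e5 : η * 1 ≤ η * (ρ : ℝ) ^ 2 := mul_le_mul_of_nonneg_left hρ2R (by linarith)
      nlinarith
    have hA0 : 0 ≤ ((D : ℝ) * ((ρ : ℝ) + 2) +
        (D : ℝ) / ((t * ρ - 1 + 1 : ℕ) : ℝ) * (((3 * ρ ^ 2 : ℕ) : ℝ) + 1)) := by
      positivity
    exact growthW _ _ (lt_of_lt_of_le hη0 hη) hA0 ρ (M * ρ ^ 2) hA h hub hrec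
  · have hd0 : 2 ≤ M * ρ ^ 2 := by
      calc 2 ≤ M := hM2
        _ = M * 1 := (mul_one _).symm
        _ ≤ M * ρ ^ 2 := Nat.mul_le_mul_left _ (Nat.one_le_pow _ _ (by omega))
    exact parW_nat ρ (M * ρ ^ 2) p hρ1 hd0 hp

end NFW
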