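import Pool.Agent.Lib.NFW.Defs
import Pool.Agent.Lib.NFU.MonC

/-!
MP_44a56e_nt (weighted), module SizW (about 150 lines): everything is polynomial in `n`.

PROOF. As `NFU.siz` (Lib/NFU/Siz.lean, copy it) with `sw n m r k = 4 n^2 (r+1) (n * nj r k * dg m r k + n * n)` in place of `sz`, and `(M (r+1)^2)^(r+2) ≤ n^(a(r+1))`.
-/

set_option autoImplicit false

open NFH NFU

namespace NFW

private theorem siz_const (C n : ℕ) (hn : 2 ≤ n) : C ≤ n ^ C :=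
  (Nat.lt_two_pow_self (n := C)).le.trans (Nat.pow_le_pow_left hn C)

private theorem siz_two (x y n b : ℕ) (hn : 2 ≤ n) (hx : x ≤ n ^ b) (hy : y ≤ n ^ b) :
    x + y ≤ n ^ (b + 1) := by
  have h : n ^ (b + 1) = n ^ b * n := pow_succ n b
  have h2 : n ^ b * 2 ≤ n ^ b * n := Nat.mul_le_mul_left _ hn
  omega

private theorem siz_mul (x y n b c : ℕ) (hx : x ≤ n ^ b) (hy : y ≤ n ^ c) :
    x * y ≤ n ^ (b + c) := by
  rw [pow_add]
  exact Nat.mul_le_mul hx hy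

private theorem siz_mono (x n b c : ℕ) (hn : 2 ≤ n) (hx : x ≤ n ^ b) (hbc : b ≤ c) :
    x ≤ n ^ c :=
  hx.trans (Nat.pow_le_pow_right (by omega) hbc)

theorem sizW (m : ℕ) (hm : 2 ≤ m) (t M : ℕ) (ht : 1 ≤ t) : ∃ a : ℕ, 1 ≤ a ∧
    ∀ n r : ℕ, 2 ≤ n → r + 1 = Nat.clog m n →
      M * (r + 1) ^ 2 ≤ n ^ a ∧
      sw n m r (t * (r + 1) - 1) * (2 * n) ≤ n ^ a ∧
      n * nj r (t * (r + 1) - 1) ≤ n ^ a ∧
      ex n m r (t * (r + 1) - 1) < n ^ a ∧
      (M * (r + 1) ^ 2) ^ (r + 1 + 1) ≤ n ^ (a * (r + 1)) := by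
  refine ⟨(10 + 2 * (t + 1) + (m * (t + 1) + 1)) + (M + 2) + 2 * (M + 2), by omega, ?_⟩
  intro n r hn hr
  set A : ℕ := 2 * (t + 1) with hA
  set B : ℕ := m * (t + 1) + 1 with hB
  have hmr : m ^ r < n := by
    by_contra hcon
    have h1 : n ≤ m ^ r := not_lt.mp hcon
    have h2 : Nat.clog m n ≤ r := (Nat.clog_le_iff_le_pow (by omega)).mpr h1
    omega
  have h2r : 2 ^ r < n := lt_of_le_of_lt (Nat.pow_le_pow_left hm r) hmr
  have hrn : r + 1 ≤ n := by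
    have : r < 2 ^ r := Nat.lt_two_pow_self
    omega
  have hr1 : r + 1 ≤ n ^ 1 := by rw [pow_one]; exact hrn
  have hn1 : n ≤ n ^ 1 := by rw [pow_one]
  have h21 : 2 ≤ n ^ 1 := by rw [pow_one]; exact hn
  have h2r1 : 2 ^ (r + 1) ≤ n ^ 2 := by
    rw [pow_succ, pow_two]
    exact Nat.mul_le_mul h2r.le hn
  set k : ℕ := t * (r + 1) - 1 with hk
  have hkle : k ≤ t * (r + 1) := by omega
  have hnj : nj r k ≤ n ^ A := by
    have h1 : nj r k ≤ 2 ^ (r + 1 + k) := card_mon_le (r + 1) k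
    have h2 : (2 : ℕ) ^ (r + 1 + k) ≤ 2 ^ ((r + 1) * (t + 1)) := by
      refine Nat.pow_le_pow_right (by norm_num) ?_
      have : (r + 1) * (t + 1) = r + 1 + t * (r + 1) := by ring
      omega
    have h3 : (2 : ℕ) ^ ((r + 1) * (t + 1)) ≤ n ^ A := by
      rw [pow_mul, hA, pow_mul]
      exact Nat.pow_le_pow_left h2r1 _
    exact h1.trans (h2.trans h3)
  have hdg : dg m r k ≤ n ^ B := by
    have h1 : dg m r k ≤ (m * (t + 1)) * (r + 1) := by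
      unfold dg
      have e1 : (r + 1) * (m - 1) ≤ (r + 1) * m := Nat.mul_le_mul_left _ (by omega)
      have e2 : m * k ≤ m * (t * (r + 1)) := Nat.mul_le_mul_left _ hkle
      have e3 : (m * (t + 1)) * (r + 1) = (r + 1) * m + m * (t * (r + 1)) := by ring
      omega
    refine h1.trans ?_
    rw [hB]
    exact siz_mul _ _ n _ _ (siz_const _ n hn) hr1
  have hM : M * (r + 1) ^ 2 ≤ n ^ (M + 2) :=
    siz_mul _ _ n _ _ (siz_const M n hn) (Nat.pow_le_pow_left hrn 2)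
  have hnnj : n * nj r k ≤ n ^ (1 + A) := siz_mul _ _ n _ _ hn1 hnj
  have hnn : n * n ≤ n ^ (1 + 1) := siz_mul _ _ n _ _ hn1 hn1
  refine ⟨?_, ?_, ?_, ?_, ?_⟩
  · exact siz_mono _ n _ _ hn hM (by omega)
  · unfold sw dz
    have e1 : n * nj r k * dg m r k ≤ n ^ (1 + A + B) := siz_mul _ _ n _ _ hnnj hdg
    have e2 : n * nj r k * dg m r k + n * n ≤ n ^ (2 + A + B + 1) :=
      siz_two _ _ n _ hn (siz_mono _ n _ _ hn e1 (by omega)) (siz_mono _ n _ _ hn hnn (by omega))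
    have e3 : 2 * (n * (r + 1)) ≤ n ^ (1 + (1 + 1)) :=
      siz_mul _ _ n _ _ h21 (siz_mul _ _ n _ _ hn1 hr1)
    have e4 : 2 * n ≤ n ^ (1 + 1) := siz_mul _ _ n _ _ h21 hn1
    have e5 : 2 * (n * (r + 1)) * (n * nj r k * dg m r k + n * n) ≤
        n ^ (1 + (1 + 1) + (2 + A + B + 1)) := siz_mul _ _ n _ _ e3 e2
    have e6 : 2 * n * (2 * (n * (r + 1)) * (n * nj r k * dg m r k + n * n)) ≤
        n ^ (1 + 1 + (1 + (1 + 1) + (2 + A + B + 1))) := siz_mul _ _ n _ _ e4 e5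
    exact siz_mono _ n _ _ hn (siz_mul _ _ n _ _ e6 e4) (by omega)
  · exact siz_mono _ n _ _ hn hnnj (by omega)
  · unfold ex
    have e1 : 4 * dg m r k ≤ n ^ (2 + B) := by
      refine siz_mul _ _ n _ _ ?_ hdg
      calc (4 : ℕ) = 2 ^ 2 := by norm_num
        _ ≤ n ^ 2 := Nat.pow_le_pow_left hn 2
    have e2 : 2 + 4 * dg m r k ≤ n ^ (2 + B + 1) :=
      siz_two _ _ n _ hn (siz_mono _ n _ _ hn h21 (by omega)) e1
    have e3 : (2 + 4 * dg m r k) * (n * nj r k) ≤ n ^ (2 + B + 1 + (1 + A)) :=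
      siz_mul _ _ n _ _ e2 hnnj
    have e4 : 2 * n ≤ n ^ (1 + 1) := siz_mul _ _ n _ _ h21 hn1
    have e5 : 2 + 2 * n ≤ n ^ (2 + 1) :=
      siz_two _ _ n _ hn (siz_mono _ n _ _ hn h21 (by omega)) (siz_mono _ n _ _ hn e4 (by omega))
    have e6 : n * (2 + 2 * n) ≤ n ^ (1 + (2 + 1)) := siz_mul _ _ n _ _ hn1 e5
    have e7 : (2 + 4 * dg m r k) * (n * nj r k) + n * (2 + 2 * n) ≤
        n ^ (2 + B + 1 + (1 + A) + 1) :=
      siz_two _ _ n _ hn e3 (siz_mono _ n _ _ hn e6 (by omega))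
    exact lt_of_le_of_lt e7 (Nat.pow_lt_pow_right (by omega) (by omega))
  · have e1 : (M * (r + 1) ^ 2) ^ (r + 1 + 1) ≤ n ^ ((M + 2) * (r + 1 + 1)) := by
      rw [pow_mul]
      exact Nat.pow_le_pow_left hM _
    refine e1.trans (Nat.pow_le_pow_right (by omega) ?_)
    have e4 : (M + 2) * (r + 1 + 1) ≤ (2 * (M + 2)) * (r + 1) := by nlinarith
    have e6 : (10 + A + B + (M + 2) + 2 * (M + 2)) * (r + 1) =
        (10 + A + B + (M + 2)) * (r + 1) + (2 * (M + 2)) * (r + 1) := by ring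
    omega

end NFW
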