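import Pool.Agent.Lib.NFW.CoreW
import Pool.Agent.Lib.NFW.ParW
import Pool.Agent.Lib.NFW.SizW

/-!
MP_44a56e_nt (weighted), module MainW (about 220 lines): the uniform theorem with the weighted exponent.

PROOF of `mainW`. As `NFU.mainU` (Lib/NFU/MainU.lean). `t, M` from `parW m ε`, `a` from `sizW`, `C1` from `cheb`, `c = m+ε ≥ 2`. `R = ⌈n^(a+1) X^(1/n)⌉₊`, `n^(a+1) X^(1/n) ≤ R ≤ n^(a+2) X^(1/n)`. `S` from `cheb` with `k := n^a`, `Y = R^c`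
(`(n^a+2)^2 ≤ (n^(a+1))^2 ≤ R^2 ≤ R^c`). `hSe`: `ex < n^a = card S`. `P = ⌊C1 R^c⌋₊`. `coreW`: `ncard * X^((r+1)/2) ≤ n^a (C1 R^c)^(n(r+1)) d1 n ≤ n^a C1^(n(r+1)) n^((a+2) c n (r+1)) X^(c (r+1)) n^(a (r+1)) n`. Divide by `X^((r+1)/2)`.
-/

set_option autoImplicit false

open Module NumberField NFH NFU

namespace NFW

private theorem clog_le3 (m n : ℕ) (hm : 2 ≤ m) (hn : 2 ≤ n) :
    (Nat.clog m n : ℝ) ≤ 3 * Real.log n := by
  have hpos : 0 < Nat.clog m n := Nat.clog_pos (by omega) (by omega)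
  have h1 : m ^ (Nat.clog m n - 1) < n := Nat.pow_pred_clog_lt_self (by omega) (by omega)
  have hn0 : (0 : ℝ) < n := by positivity
  have hl2 : (0.6931471803 : ℝ) < Real.log 2 := Real.log_two_gt_d9
  have h2 : ((Nat.clog m n - 1 : ℕ) : ℝ) * Real.log m < Real.log n := by
    rw [← Real.log_pow]
    have hm0 : (0 : ℝ) < (m : ℝ) := by positivity
    refine Real.log_lt_log (by positivity) ?_
    exact_mod_cast h1
  have h3 : Real.log 2 ≤ Real.log m := Real.log_le_log (by norm_num) (by exact_mod_cast hm)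
  have h4 : Real.log 2 ≤ Real.log n := Real.log_le_log (by norm_num) (by exact_mod_cast hn)
  have h5 : ((Nat.clog m n - 1 : ℕ) : ℝ) = (Nat.clog m n : ℝ) - 1 := by
    rw [Nat.cast_sub hpos, Nat.cast_one]
  have h6 : (0 : ℝ) ≤ ((Nat.clog m n - 1 : ℕ) : ℝ) := Nat.cast_nonneg _
  rw [h5] at h2 h6
  have h7 : ((Nat.clog m n : ℝ) - 1) * Real.log 2 ≤ Real.log n :=
    (mul_le_mul_of_nonneg_left h3 h6).trans h2.le
  have h8 : (Nat.clog m n : ℝ) * Real.log 2 ≤ 2 * Real.log n := by linarith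
  by_contra hcon
  push Not at hcon
  have h9 : 3 * Real.log n * Real.log 2 < (Nat.clog m n : ℝ) * Real.log 2 :=
    mul_lt_mul_of_pos_right hcon (by linarith)
  nlinarith

set_option maxHeartbeats 1000000 in
theorem mainW (m : ℕ) (hm : 2 ≤ m) (ε : ℝ) (hε : 0 < ε) : ∃ C : ℝ, 0 < C ∧
    ∀ n : ℕ, 2 ≤ n → ∀ X : ℝ, 1 ≤ X → (FS n X).Finite ∧
      ((FS n X).ncard : ℝ) ≤
        (n : ℝ) ^ (C * n * Real.log n) * X ^ (((m : ℝ) - 1 / 2 + ε) * (Nat.clog m n : ℝ)) := by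
  obtain ⟨t, M, ht, hM, hpar⟩ := parW m hm ε hε
  obtain ⟨a, ha, hsiz⟩ := sizW m hm t M ht
  obtain ⟨C1, hC1, hcheb⟩ := cheb
  have hm2 : (2 : ℝ) ≤ m := by exact_mod_cast hm
  obtain ⟨c, hc⟩ : ∃ c : ℝ, c = m + ε := ⟨_, rfl⟩
  have hcc : (m : ℝ) - 1 / 2 + ε = c - 1 / 2 := by rw [hc]; ring
  rw [← hc] at hpar
  rw [hcc]
  have hc2 : 2 ≤ c := by linarith
  refine ⟨3 * ((C1 : ℝ) + 2 * a + (a + 2) * c + 1), by positivity, ?_⟩
  intro n hn X hX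
  have hcl := clog_le3 m n hm hn
  obtain ⟨r, hr⟩ : ∃ r, r + 1 = Nat.clog m n := by
    have hpos : 0 < Nat.clog m n := Nat.clog_pos (by omega) (by omega)
    exact ⟨Nat.clog m n - 1, by omega⟩
  obtain ⟨h1, h2, h3, h4, h5⟩ := hsiz n r hn hr
  obtain ⟨hcD, hg, hk⟩ := hpar r
  obtain ⟨k, hkk⟩ : ∃ k, k = t * (r + 1) - 1 := ⟨_, rfl⟩
  obtain ⟨κ, hκ⟩ : ∃ κ, κ = 3 * (r + 1) ^ 2 := ⟨_, rfl⟩
  obtain ⟨d1, hd1⟩ : ∃ d1, d1 = (M * (r + 1) ^ 2) ^ (r + 1 + 1) := ⟨_, rfl⟩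
  rw [← hkk] at h2 h3 h4 hg hcD
  rw [← hd1] at h5 hk hg
  rw [← hκ] at hk hg
  have hn2 : (2 : ℝ) ≤ n := by exact_mod_cast hn
  have hn0 : (0 : ℝ) < n := by linarith
  have hn1 : (1 : ℝ) ≤ n := by linarith
  have hX0 : (0 : ℝ) < X := by linarith
  have hX1 : 1 ≤ X ^ ((1 : ℝ) / n) := Real.one_le_rpow hX (by positivity)
  have hna1 : (n : ℝ) ≤ (n : ℝ) ^ a := le_self_pow₀ hn1 (by omega)
  obtain ⟨Q, hQ⟩ : ∃ Q : ℝ, Q = (n : ℝ) ^ (a + 1) * X ^ ((1 : ℝ) / n) := ⟨_, rfl⟩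
  obtain ⟨R, hR⟩ : ∃ R : ℕ, R = ⌈Q⌉₊ := ⟨_, rfl⟩
  have hna2 : 2 * (n : ℝ) ^ a ≤ (n : ℝ) ^ (a + 1) := by
    rw [pow_succ, mul_comm]
    exact mul_le_mul_of_nonneg_left hn2 (by positivity)
  have hnaQ : (n : ℝ) ^ (a + 1) ≤ Q := by
    rw [hQ]
    exact le_mul_of_one_le_right (by positivity) hX1
  have hQR : Q ≤ (R : ℝ) := by rw [hR]; exact Nat.le_ceil _
  have hnaR : 2 * (n : ℝ) ^ a ≤ (R : ℝ) := by linarith
  have hR4 : (4 : ℝ) ≤ R := by linarith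
  have hR2 : 2 ≤ R := by
    have : (2 : ℝ) ≤ (R : ℝ) := by linarith
    exact_mod_cast this
  have hR1 : (1 : ℝ) ≤ R := by linarith
  have hR0 : (0 : ℝ) < R := by linarith
  have hRle : (R : ℝ) ≤ (n : ℝ) ^ (a + 2) * X ^ ((1 : ℝ) / n) := by
    have e1 : (R : ℝ) ≤ Q + 1 := by
      rw [hR]
      exact (Nat.ceil_lt_add_one (by rw [hQ]; positivity)).le
    have e2 : 1 ≤ Q := by linarith
    have e3 : 2 * Q ≤ n * Q := mul_le_mul_of_nonneg_right hn2 (by linarith)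
    calc (R : ℝ) ≤ n * Q := by linarith
      _ = (n : ℝ) ^ (a + 2) * X ^ ((1 : ℝ) / n) := by rw [hQ]; ring
  have hRc : (R : ℝ) ≤ (R : ℝ) ^ c := by
    conv_lhs => rw [← Real.rpow_one (R : ℝ)]
    exact Real.rpow_le_rpow_of_exponent_le hR1 (by linarith)
  have hRX : (sw n m r k : ℝ) * (2 * n * X ^ ((1 : ℝ) / n)) ≤ R := by
    have h6 : (sw n m r k : ℝ) * (2 * n) ≤ (n : ℝ) ^ a := by exact_mod_cast h2
    calc (sw n m r k : ℝ) * (2 * n * X ^ ((1 : ℝ) / n))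
        = ((sw n m r k : ℝ) * (2 * n)) * X ^ ((1 : ℝ) / n) := by ring
      _ ≤ (n : ℝ) ^ a * X ^ ((1 : ℝ) / n) := mul_le_mul_of_nonneg_right h6 (by linarith)
      _ ≤ (n : ℝ) ^ (a + 1) * X ^ ((1 : ℝ) / n) := by
        refine mul_le_mul_of_nonneg_right ?_ (by linarith)
        linarith [pow_nonneg hn0.le a]
      _ ≤ R := by rw [← hQ]; exact hQR
  have hsz : n * nj r k ≤ R := by
    have h6 : ((n * nj r k : ℕ) : ℝ) ≤ (n : ℝ) ^ a := by exact_mod_cast h3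
    have h7 : ((n * nj r k : ℕ) : ℝ) ≤ (R : ℝ) := by linarith [pow_nonneg hn0.le a]
    exact_mod_cast h7
  have hY : (((n ^ a : ℕ) : ℝ) + 2) ^ 2 ≤ (R : ℝ) ^ c := by
    have h6 : ((n ^ a : ℕ) : ℝ) + 2 ≤ R := by
      push_cast
      linarith
    calc (((n ^ a : ℕ) : ℝ) + 2) ^ 2 ≤ (R : ℝ) ^ 2 := pow_le_pow_left₀ (by positivity) h6 2
      _ = (R : ℝ) ^ (2 : ℝ) := by
        have h9 : (R : ℝ) ^ (2 : ℝ) = (R : ℝ) ^ 2 := by
          rw [show (2 : ℝ) = ((2 : ℕ) : ℝ) by norm_num, Real.rpow_natCast]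
        exact h9.symm
      _ ≤ (R : ℝ) ^ c := Real.rpow_le_rpow_of_exponent_le hR1 hc2
  obtain ⟨S, hScard, hS⟩ := hcheb (n ^ a) ((R : ℝ) ^ c) hY
  have hSp : ∀ p ∈ S, (R : ℝ) ≤ (p : ℝ) := fun p hp => hRc.trans (hS p hp).2.1
  obtain ⟨hfin, hcard⟩ := coreW n m r k κ d1 c (by omega) (by omega)
    (by rw [hr]; exact Nat.le_pow_clog (by omega) n) (by linarith) hcD hg X R hX hR2 hRX hsz S
    (fun p hp => (hS p hp).1) (fun p hp => (hS p hp).2.1)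
    (fun p hp => hk p (by
      have h6 : ((M * (r + 1) ^ 2 : ℕ) : ℝ) ≤ (n : ℝ) ^ a := by exact_mod_cast h1
      have h7 := hSp p hp
      have h8 : ((M * (r + 1) ^ 2 : ℕ) : ℝ) ≤ (p : ℝ) := by linarith [pow_nonneg hn0.le a]
      exact_mod_cast h8))
    (by
      rw [hScard]
      have h6 : (R : ℝ) ^ ex n m r k < (R : ℝ) ^ (n ^ a) :=
        pow_lt_pow_right₀ (by linarith) h4
      exact h6.trans_le (pow_le_pow_left₀ hR0.le hRc _))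
    ⌊(C1 : ℝ) * (R : ℝ) ^ c⌋₊ (fun p hp => Nat.le_floor (hS p hp).2.2)
  refine ⟨hfin, ?_⟩
  obtain ⟨N, hN⟩ : ∃ N, N = n * (r + 1) := ⟨_, rfl⟩
  rw [hScard, ← hN] at hcard
  have hNr : (r : ℝ) + 1 ≤ N := by
    rw [hN]
    push_cast
    nlinarith [(Nat.cast_nonneg r : (0 : ℝ) ≤ r)]
  have hN1 : (1 : ℝ) ≤ N := by linarith [(Nat.cast_nonneg r : (0 : ℝ) ≤ r)]
  have hRc0 : 0 < (R : ℝ) ^ c := by positivity
  have hP : ((⌊(C1 : ℝ) * (R : ℝ) ^ c⌋₊ : ℕ) : ℝ) ≤ C1 * (R : ℝ) ^ c :=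
    Nat.floor_le (by positivity)
  have h6 : ((FS n X).ncard : ℝ) * X ^ (((r : ℝ) + 1) / 2) ≤
      (n : ℝ) ^ a * (((C1 : ℝ) * (R : ℝ) ^ c) ^ N * ((n : ℝ) ^ (a * (r + 1)) * n)) := by
    have h7 : ((n ^ a * ((⌊(C1 : ℝ) * (R : ℝ) ^ c⌋₊) ^ N * (d1 * n)) : ℕ) : ℝ) =
        (n : ℝ) ^ a * (((⌊(C1 : ℝ) * (R : ℝ) ^ c⌋₊ : ℕ) : ℝ) ^ N * ((d1 : ℝ) * n)) := by
      push_cast
      ring
    rw [h7] at hcard
    have h8 : (d1 : ℝ) ≤ (n : ℝ) ^ (a * (r + 1)) := by exact_mod_cast h5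
    refine hcard.trans (mul_le_mul_of_nonneg_left ?_ (by positivity))
    exact mul_le_mul (pow_le_pow_left₀ (Nat.cast_nonneg _) hP N)
      (mul_le_mul_of_nonneg_right h8 hn0.le) (by positivity) (by positivity)
  have hC1n : (C1 : ℝ) ^ N ≤ (n : ℝ) ^ ((C1 : ℝ) * N) := by
    have h7 : C1 ≤ n ^ C1 := (Nat.lt_pow_self (by omega)).le
    have h8 : (C1 : ℝ) ≤ (n : ℝ) ^ C1 := by exact_mod_cast h7
    calc (C1 : ℝ) ^ N ≤ ((n : ℝ) ^ C1) ^ N := pow_le_pow_left₀ (Nat.cast_nonneg _) h8 N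
      _ = (n : ℝ) ^ ((C1 : ℝ) * N) := by
        rw [← pow_mul, ← Real.rpow_natCast]
        push_cast
        rfl
  have hRN : ((R : ℝ) ^ c) ^ N ≤
      (n : ℝ) ^ (((a : ℝ) + 2) * c * N) * X ^ (c * ((r : ℝ) + 1)) := by
    have e1 : ((R : ℝ) ^ c) ^ N ≤ (((n : ℝ) ^ (a + 2) * X ^ ((1 : ℝ) / n)) ^ c) ^ N :=
      pow_le_pow_left₀ hRc0.le (Real.rpow_le_rpow hR0.le hRle (by linarith)) N
    refine e1.trans (le_of_eq ?_)
    rw [Real.mul_rpow (by positivity) (by positivity), mul_pow]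
    congr 1
    · rw [← Real.rpow_natCast (n : ℝ) (a + 2), ← Real.rpow_mul hn0.le, ← Real.rpow_natCast,
        ← Real.rpow_mul hn0.le]
      push_cast
      rfl
    · rw [← Real.rpow_mul hX0.le, ← Real.rpow_natCast, ← Real.rpow_mul hX0.le]
      congr 1
      rw [hN]
      push_cast
      field_simp
  have hXc : X ^ ((c - 1 / 2) * (Nat.clog m n : ℝ)) * X ^ (((r : ℝ) + 1) / 2) =
      X ^ (c * ((r : ℝ) + 1)) := by
    rw [← hr, ← Real.rpow_add hX0]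
    congr 1
    push_cast
    ring
  have hXh : 0 < X ^ (((r : ℝ) + 1) / 2) := by positivity
  refine le_of_mul_le_mul_right ?_ hXh
  rw [mul_assoc, hXc]
  refine h6.trans ?_
  have hXp : 0 < X ^ (c * ((r : ℝ) + 1)) := by positivity
  calc (n : ℝ) ^ a * (((C1 : ℝ) * (R : ℝ) ^ c) ^ N * ((n : ℝ) ^ (a * (r + 1)) * n))
      = (n : ℝ) ^ a * (((C1 : ℝ) ^ N * ((R : ℝ) ^ c) ^ N) * ((n : ℝ) ^ (a * (r + 1)) * n)) := by
        rw [mul_pow]
    _ ≤ (n : ℝ) ^ a * (((n : ℝ) ^ ((C1 : ℝ) * N) * ((n : ℝ) ^ (((a : ℝ) + 2) * c * N) *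
          X ^ (c * ((r : ℝ) + 1)))) * ((n : ℝ) ^ (a * (r + 1)) * n)) := by
        refine mul_le_mul_of_nonneg_left ?_ (by positivity)
        refine mul_le_mul_of_nonneg_right ?_ (by positivity)
        exact mul_le_mul hC1n hRN (by positivity) (by positivity)
    _ = (n : ℝ) ^ ((a : ℝ) + C1 * N + (a + 2) * c * N + a * (r + 1) + 1) *
          X ^ (c * ((r : ℝ) + 1)) := by
        rw [Real.rpow_add hn0, Real.rpow_add hn0, Real.rpow_add hn0, Real.rpow_add hn0,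
          Real.rpow_one, Real.rpow_natCast]
        have h7 : (n : ℝ) ^ ((a : ℝ) * ((r : ℝ) + 1)) = (n : ℝ) ^ (a * (r + 1)) := by
          rw [← Real.rpow_natCast]
          push_cast
          rfl
        rw [h7]
        generalize (n : ℝ) ^ a = y1
        generalize (n : ℝ) ^ ((C1 : ℝ) * N) = y2
        generalize (n : ℝ) ^ (((a : ℝ) + 2) * c * N) = y3
        generalize (n : ℝ) ^ (a * (r + 1)) = y4
        generalize X ^ (c * ((r : ℝ) + 1)) = y5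
        ring
    _ ≤ (n : ℝ) ^ (3 * ((C1 : ℝ) + 2 * a + (a + 2) * c + 1) * n * Real.log n) *
          X ^ (c * ((r : ℝ) + 1)) := by
        refine mul_le_mul_of_nonneg_right ?_ hXp.le
        refine Real.rpow_le_rpow_of_exponent_le hn1 ?_
        have ha0 : (0 : ℝ) ≤ a := Nat.cast_nonneg a
        have hC0 : (0 : ℝ) ≤ C1 := Nat.cast_nonneg C1
        have h7 : (a : ℝ) + C1 * N + (a + 2) * c * N + a * (r + 1) + 1 ≤
            ((C1 : ℝ) + 2 * a + (a + 2) * c + 1) * N := by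
          have e1 : (a : ℝ) ≤ a * N := le_mul_of_one_le_right ha0 hN1
          have e2 : (a : ℝ) * (r + 1) ≤ a * N := mul_le_mul_of_nonneg_left hNr ha0
          nlinarith
        have h8 : (N : ℝ) ≤ n * (3 * Real.log n) := by
          rw [hN, Nat.cast_mul]
          refine mul_le_mul_of_nonneg_left ?_ hn0.le
          rw [hr]
          exact hcl
        calc _ ≤ ((C1 : ℝ) + 2 * a + (a + 2) * c + 1) * N := h7
          _ ≤ ((C1 : ℝ) + 2 * a + (a + 2) * c + 1) * (n * (3 * Real.log n)) :=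
            mul_le_mul_of_nonneg_left h8 (by positivity)
          _ = 3 * ((C1 : ℝ) + 2 * a + (a + 2) * c + 1) * n * Real.log n := by ring

end NFW
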