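import Pool.Agent.Lib.NFH.HzB

/-!
MP_44a56e_nt (weighted), module MonW (about 150 lines): monomials adapted to the filtration by the degree.

PROOF. By induction on `d` there is `S_d ⊆ mon r d` with `S_d.card = hz I d`, independent modulo `I`, and `(S_d.filter (degree ≤ e)).card = hz I e` for all `e ≤ d`. Step: extend `S_d` to a maximal independent (modulo `I`) subset `S` of `mon r (d+1)`
(`exists_linearIndepOn_extension`/`LinearIndepOn.extend`, or Zorn in a finite set); its cardinality is the rank of the span of all monomials of degree `≤ d+1`, i.e. `hz I (d+1)` (as in `NFH.exists_monomials`, whose proof shows how to pass to ranks; `PZ r ⧸ I` is torsion free). The elements of `S` of degree `≤ d` are independent in a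
module of rank `hz I d`, so there are at most `hz I d` of them, and they contain `S_d`: equality. Finally
`∑_{β ∈ S} (d - |β|) = ∑_{β ∈ S} card {e < d : |β| ≤ e} = ∑_{e < d} card (S.filter (degree ≤ e)) = ∑_{e<d} hz I e`.
-/

set_option autoImplicit false

open MvPolynomial Module NumberField NFH

namespace NFW

private theorem mw_tf {r : ℕ} (I : Ideal (PZ r))
    (hsat : ∀ F : PZ r, ∀ n : ℤ, n ≠ 0 → C n * F ∈ I → F ∈ I) :
    Module.IsTorsionFree ℤ (PZ r ⧸ I) := by
  constructor
  intro n hn a b hab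
  have hn0 : n ≠ 0 := hn.ne_zero
  obtain ⟨F, rfl⟩ := Ideal.Quotient.mk_surjective a
  obtain ⟨G, rfl⟩ := Ideal.Quotient.mk_surjective b
  have h1 : n • Ideal.Quotient.mk I F = n • Ideal.Quotient.mk I G := hab
  rw [Ideal.Quotient.eq]
  apply hsat _ n hn0
  rw [← Ideal.Quotient.eq_zero_iff_mem, map_mul, map_sub, mul_sub, sub_eq_zero]
  have h2 : ∀ P : PZ r, Ideal.Quotient.mk I (C n) * Ideal.Quotient.mk I P =
      n • Ideal.Quotient.mk I P := by
    intro P
    rw [← map_mul, zsmul_eq_mul, ← map_intCast (Ideal.Quotient.mk I), ← map_mul]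
    congr 2
  rw [h2, h2, h1]

private theorem mw_span {r : ℕ} (I : Ideal (PZ r)) (d : ℕ) :
    (VZ r d).map (Ideal.Quotient.mkₐ ℤ I).toLinearMap =
      Submodule.span ℤ ((fun β : Fin r →₀ ℕ => Ideal.Quotient.mk I (monomial β (1 : ℤ))) ''
        (mon r d : Set (Fin r →₀ ℕ))) := by
  have h1 : VZ r d = Submodule.span ℤ ((fun β : Fin r →₀ ℕ => (monomial β (1 : ℤ) : PZ r)) ''
      (mon r d : Set (Fin r →₀ ℕ))) := by
    have h2 := restrictSupport_eq_span (R := ℤ) {n : Fin r →₀ ℕ | (n.sum fun _ e => e) ≤ d}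
    have h3 : {n : Fin r →₀ ℕ | (n.sum fun _ e => e) ≤ d} = (mon r d : Set (Fin r →₀ ℕ)) := by
      ext n
      rw [Finset.mem_coe, mem_mon]
      rfl
    have h4 : VZ r d = restrictSupport ℤ {n : Fin r →₀ ℕ | (n.sum fun _ e => e) ≤ d} := rfl
    rw [h4, h2, h3]
  rw [h1, Submodule.map_span, Set.image_image]
  rfl

section lin

variable {M ι : Type} [AddCommGroup M] [Module.IsTorsionFree ℤ M] (v : ι → M)

omit [Module.IsTorsionFree ℤ M] in
private theorem mw_rank (S : Finset ι) (h : LinearIndepOn ℤ v (S : Set ι)) :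
    finrank ℤ (Submodule.span ℤ (v '' (S : Set ι))) = S.card := by
  have h1 := finrank_span_eq_card (R := ℤ) (b := fun x : (S : Set ι) => v x) h
  rw [← Set.image_eq_range] at h1
  rw [h1]
  simp

private theorem mw_card_le (A S : Finset ι) (hS : S ⊆ A) (h : LinearIndepOn ℤ v (S : Set ι)) :
    S.card ≤ finrank ℤ (Submodule.span ℤ (v '' (A : Set ι))) := by
  rw [← mw_rank v S h]
  have hfin2 : Module.Finite ℤ (Submodule.span ℤ (v '' (A : Set ι))) :=
    Module.Finite.span_of_finite ℤ (Set.toFinite _)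
  exact Submodule.finrank_mono (Submodule.span_mono (Set.image_mono (Finset.coe_subset.2 hS)))

private theorem mw_dep [DecidableEq ι] (S : Finset ι) (i : ι) (hI : LinearIndepOn ℤ v (S : Set ι))
    (hd : ¬ LinearIndepOn ℤ v ((insert i S : Finset ι) : Set ι)) :
    ∃ a : ℤ, a ≠ 0 ∧ a • v i ∈ Submodule.span ℤ (v '' (S : Set ι)) := by
  obtain ⟨f, supp_f, sum_f, f_ne⟩ := linearDepOn_iff.mp hd
  have memJ : ∀ {x}, x ∈ ((insert i S : Finset ι) : Set ι) ↔ x = i ∨ x ∈ (S : Set ι) := by
    intro x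
    simp
  have hfi : f i ≠ 0 := by
    intro h0
    apply f_ne
    refine linearIndepOn_iff.1 hI f ?_ sum_f
    simp only [Finsupp.mem_supported] at supp_f ⊢
    intro x hx
    refine (memJ.mp (supp_f hx)).resolve_left ?_
    rintro rfl
    exact (Finsupp.mem_support_iff.mp hx) h0
  refine ⟨f i, hfi, ?_⟩
  have hfi' : i ∈ f.support := Finsupp.mem_support_iff.mpr hfi
  rw [← Finset.insert_erase hfi', Finset.sum_insert (Finset.notMem_erase _ _), add_eq_zero_iff_eq_neg] at sum_f
  rw [sum_f]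
  refine neg_mem (sum_mem fun c hc => Submodule.smul_mem _ _ (Submodule.subset_span ⟨c, ?_, rfl⟩))
  exact (memJ.mp (supp_f (Finset.erase_subset _ _ hc))).resolve_left (Finset.ne_of_mem_erase hc)

private theorem mw_ext (A S0 : Finset ι) (h0A : S0 ⊆ A)
    (h0 : LinearIndepOn ℤ v (S0 : Set ι)) :
    ∃ S : Finset ι, S0 ⊆ S ∧ S ⊆ A ∧ LinearIndepOn ℤ v (S : Set ι) ∧
      S.card = finrank ℤ (Submodule.span ℤ (v '' (A : Set ι))) := by
  classical
  let P : Finset (Finset ι) :=
    A.powerset.filter (fun S => S0 ⊆ S ∧ LinearIndepOn ℤ v (S : Set ι))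
  have hP : P.Nonempty := ⟨S0, by
    rw [Finset.mem_filter, Finset.mem_powerset]
    exact ⟨h0A, Finset.Subset.refl _, h0⟩⟩
  obtain ⟨S, hS, hmax⟩ := P.exists_max_image Finset.card hP
  rw [Finset.mem_filter, Finset.mem_powerset] at hS
  obtain ⟨hSA, hS0, hSI⟩ := hS
  refine ⟨S, hS0, hSA, hSI, ?_⟩
  have hall : ∀ i ∈ A, ∃ a : ℤ, a ≠ 0 ∧ a • v i ∈ Submodule.span ℤ (v '' (S : Set ι)) := by
    intro i hi
    by_cases hiS : i ∈ S
    · refine ⟨1, one_ne_zero, ?_⟩
      rw [one_smul]
      exact Submodule.subset_span ⟨i, hiS, rfl⟩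
    · refine mw_dep v S i hSI ?_
      intro hins
      have h1 : insert i S ∈ P := by
        rw [Finset.mem_filter, Finset.mem_powerset]
        exact ⟨Finset.insert_subset hi hSA, hS0.trans (Finset.subset_insert _ _), hins⟩
      have h2 := hmax _ h1
      rw [Finset.card_insert_of_notMem hiS] at h2
      omega
  choose! a ha using hall
  obtain ⟨N, hN⟩ : ∃ N : ℤ, N = ∏ i ∈ A, a i := ⟨_, rfl⟩
  have hNne : N ≠ 0 := by
    rw [hN]
    exact Finset.prod_ne_zero_iff.mpr fun i hi => (ha i hi).1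
  have hNv : ∀ i ∈ A, N • v i ∈ Submodule.span ℤ (v '' (S : Set ι)) := by
    intro i hi
    rw [hN, ← Finset.prod_erase_mul _ _ hi, mul_smul]
    exact Submodule.smul_mem _ _ (ha i hi).2
  have hNM : ∀ x ∈ Submodule.span ℤ (v '' (A : Set ι)),
      N • x ∈ Submodule.span ℤ (v '' (S : Set ι)) := by
    intro x hx
    induction hx using Submodule.span_induction with
    | mem x h =>
      obtain ⟨i, hi, rfl⟩ := h
      exact hNv i hi
    | zero =>
      rw [smul_zero]
      exact Submodule.zero_mem _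
    | add x y _ _ hx hy =>
      rw [smul_add]
      exact Submodule.add_mem _ hx hy
    | smul c x _ hx =>
      rw [smul_comm]
      exact Submodule.smul_mem _ _ hx
  have hfin1 : Module.Finite ℤ (Submodule.span ℤ (v '' (S : Set ι))) :=
    Module.Finite.span_of_finite ℤ (Set.toFinite _)
  have hfin2 : Module.Finite ℤ (Submodule.span ℤ (v '' (A : Set ι))) :=
    Module.Finite.span_of_finite ℤ (Set.toFinite _)
  apply le_antisymm
  · exact mw_card_le v A S hSA hSI
  · rw [← mw_rank v S hSI]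
    let g : Submodule.span ℤ (v '' (A : Set ι)) →ₗ[ℤ] Submodule.span ℤ (v '' (S : Set ι)) :=
      LinearMap.codRestrict _ (N • (Submodule.span ℤ (v '' (A : Set ι))).subtype)
        (fun x => hNM x.1 x.2)
    refine LinearMap.finrank_le_finrank_of_injective (f := g) ?_
    intro x y hxy
    have h1 : N • x.1 = N • y.1 := congrArg Subtype.val hxy
    exact Subtype.ext (smul_right_injective _ hNne h1)

end lin

private theorem mw_filter {r : ℕ} {d : ℕ} {S : Finset (Fin r →₀ ℕ)} (hS : S ⊆ mon r d) :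
    S.filter (fun β => β.degree ≤ d) = S :=
  Finset.filter_true_of_mem (fun β hβ => mem_mon.1 (hS hβ))

theorem exists_monW {r : ℕ} (I : Ideal (PZ r))
    (hsat : ∀ F : PZ r, ∀ n : ℤ, n ≠ 0 → C n * F ∈ I → F ∈ I) (d : ℕ) :
    ∃ S : Finset (Fin r →₀ ℕ), S ⊆ mon r d ∧ S.card = hz I d ∧
      (∀ c : (Fin r →₀ ℕ) → ℤ, (∑ β ∈ S, monomial β (c β)) ∈ I → ∀ β ∈ S, c β = 0) ∧
      ∑ β ∈ S, (d - β.degree) = ∑ e ∈ Finset.range d, hz I e := by
  classical
  have htf := mw_tf I hsat
  let v : (Fin r →₀ ℕ) → PZ r ⧸ I := fun β => Ideal.Quotient.mk I (monomial β (1 : ℤ))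
  have hhz : ∀ e, hz I e = finrank ℤ (Submodule.span ℤ (v '' (mon r e : Set (Fin r →₀ ℕ)))) := by
    intro e
    unfold hz
    rw [mw_span]
  have hind : ∀ d, ∃ S : Finset (Fin r →₀ ℕ), S ⊆ mon r d ∧
      LinearIndepOn ℤ v (S : Set (Fin r →₀ ℕ)) ∧
      ∀ e ≤ d, (S.filter (fun β => β.degree ≤ e)).card = hz I e := by
    intro d
    induction d with
    | zero =>
      obtain ⟨S, -, hSA, hSI, hSc⟩ := mw_ext v (mon r 0) ∅ (Finset.empty_subset _)
        (by rw [Finset.coe_empty]; exact linearIndepOn_empty ℤ v)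
      refine ⟨S, hSA, hSI, fun e he => ?_⟩
      obtain rfl : e = 0 := Nat.le_zero.1 he
      rw [mw_filter hSA, hhz, hSc]
    | succ d ih =>
      obtain ⟨S0, h0A, h0I, h0c⟩ := ih
      have hsub : mon r d ⊆ mon r (d + 1) := fun _ hβ =>
        mem_mon.2 ((mem_mon.1 hβ).trans (Nat.le_succ d))
      obtain ⟨S, hS0, hSA, hSI, hSc⟩ := mw_ext v (mon r (d + 1)) S0 (h0A.trans hsub) h0I
      refine ⟨S, hSA, hSI, fun e he => ?_⟩
      rcases Nat.lt_or_ge d e with h | h
      · obtain rfl : e = d + 1 := by omega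
        rw [mw_filter hSA, hhz, hSc]
      · apply le_antisymm
        · rw [hhz]
          refine mw_card_le v (mon r e) _ (fun β hβ => mem_mon.2 (Finset.mem_filter.1 hβ).2) ?_
          exact hSI.mono (Finset.coe_subset.2 (Finset.filter_subset _ _))
        · rw [← h0c e h]
          exact Finset.card_le_card (Finset.filter_subset_filter _ hS0)
  obtain ⟨S, hSA, hSI, hSc⟩ := hind d
  refine ⟨S, hSA, ?_, ?_, ?_⟩
  · have h1 := hSc d le_rfl
    rwa [mw_filter hSA] at h1
  · intro c hc
    have h1 := linearIndepOn_finset_iff.1 hSI c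
    apply h1
    rw [← Ideal.Quotient.eq_zero_iff_mem, map_sum] at hc
    rw [← hc]
    refine Finset.sum_congr rfl fun β _ => ?_
    change c β • Ideal.Quotient.mk I (monomial β (1 : ℤ)) =
      Ideal.Quotient.mk I (monomial β (c β))
    rw [zsmul_eq_mul, ← map_intCast (Ideal.Quotient.mk I), ← map_mul]
    congr 1
    rw [← zsmul_eq_mul, ← map_zsmul]
    congr 1
    simp
  · have h1 : ∀ β : Fin r →₀ ℕ, d - β.degree =
        ∑ e ∈ Finset.range d, if β.degree ≤ e then 1 else 0 := by
      intro β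
      rw [← Finset.card_filter]
      have h2 : (Finset.range d).filter (fun e => β.degree ≤ e) = Finset.Ico β.degree d := by
        ext e
        simp only [Finset.mem_filter, Finset.mem_range, Finset.mem_Ico]
        tauto
      rw [h2, Nat.card_Ico]
    rw [Finset.sum_congr rfl (fun β _ => h1 β), Finset.sum_comm]
    refine Finset.sum_congr rfl fun e he => ?_
    rw [← Finset.card_filter]
    exact hSc e (le_of_lt (Finset.mem_range.1 he))

end NFW
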