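import Pool.Agent.Lib.NFU.ShortW

/-!
MP_44a56e_nt (weighted), module ShortP (about 130 lines): independent integers with a bound for the product of their sizes.

PROOF: the proof of `NFU.short_indep` (Lib/NFU/ShortW.lean, copy it) with `l i = (T2 (w i))^(1/2)`: `‖φ (w i)‖ ≤ l i`, `l i > 0` (`w i ≠ 0`), `l i ≤ 2 n |D|^(1/n)` (there), and `∏ l i = (∏ T2 (w i))^(1/2) ≤ (gam^n |D|)^(1/2) ≤ (2n)^(n/2) |D|^(1/2) ≤ (2n)^n |D|^(1/2)` (`mink`, `gam_le`, `2 n ≥ 1`).
-/

set_option autoImplicit false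

open Module NumberField NFU

namespace NFW

private theorem shortP_le_T2 {K : Type} [Field K] [NumberField K] (z : K) (φ : K →+* ℂ) : ‖φ z‖ ^ 2 ≤ T2 z := by
  unfold T2
  exact Finset.single_le_sum (f := fun ψ : K →+* ℂ => ‖ψ z‖ ^ 2) (fun ψ _ => by positivity) (Finset.mem_univ φ)

private theorem shortP_finite (K : Type) [Field K] [NumberField K] (B : ℝ) :
    {z : 𝓞 K | T2 (z : K) ≤ B}.Finite := by
  have h1 := NumberField.Embeddings.finite_of_norm_le K ℂ (Real.sqrt B)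
  refine Set.Finite.subset (h1.preimage (f := fun z : 𝓞 K => (z : K))
    (fun x _ y _ h => NumberField.RingOfIntegers.ext h)) ?_
  intro z hz
  refine ⟨z.isIntegral_coe, fun φ => ?_⟩
  exact Real.le_sqrt_of_sq_le ((shortP_le_T2 _ φ).trans hz)

theorem short_prod (K : Type) [Field K] [NumberField K] (n : ℕ) (hn : finrank ℚ K = n) :
    ∃ (w : Fin n → 𝓞 K) (l : Fin n → ℝ), LinearIndependent ℚ (fun i => (w i : K)) ∧
      (∀ i, 0 < l i) ∧ (∀ i, l i ≤ 2 * n * |(discr K : ℝ)| ^ ((1 : ℝ) / n)) ∧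
      (∀ (i : Fin n) (φ : K →+* ℂ), ‖φ (w i : K)‖ ≤ l i) ∧
      ∏ i, l i ≤ (2 * (n : ℝ)) ^ n * Real.sqrt |(discr K : ℝ)| := by
  classical
  have hn1 : 1 ≤ n := by rw [← hn]; exact Module.finrank_pos
  have hnz : finrank ℤ (𝓞 K) = n := by rw [RingOfIntegers.rank, hn]
  obtain ⟨e, -⟩ : ∃ e : Basis (Fin n) ℤ (𝓞 K), True := ⟨Module.finBasisOfFinrankEq ℤ (𝓞 K) hnz, trivial⟩
  obtain ⟨b, hb⟩ : ∃ b : Basis (Fin n) ℚ K, ∀ i, b i = ((e i : 𝓞 K) : K) :=
    ⟨e.localizationLocalization ℚ (nonZeroDivisors ℤ) K, fun i =>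
      Basis.localizationLocalization_apply ℚ (nonZeroDivisors ℤ) K e i⟩
  obtain ⟨G, hG, hGd, hGq⟩ := gramT2 K n hn e
  have hspan : Submodule.span ℚ (Set.range (fun z : 𝓞 K => (z : K))) = ⊤ := by
    rw [eq_top_iff, ← b.span_eq]
    refine Submodule.span_mono ?_
    rintro _ ⟨i, rfl⟩
    exact ⟨e i, (hb i).symm⟩
  obtain ⟨w, hli, hmono, hsp⟩ := greedy (V := K) (α := 𝓞 K) n hn (fun z : 𝓞 K => (z : K)) hspan
    (fun z : 𝓞 K => T2 (z : K)) (shortP_finite K)
  let c : Fin n → Fin n → ℤ := fun i a => e.repr (w i) a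
  have hc : ∀ i, ∑ a, c i a • e a = w i := fun i => e.sum_repr (w i)
  have hcK : ∀ z : Fin n → ℤ, ((∑ a, z a • e a : 𝓞 K) : K) = ∑ a, (z a : ℚ) • b a := by
    intro z
    change algebraMap (𝓞 K) K (∑ a, z a • e a) = _
    rw [map_sum]
    refine Finset.sum_congr rfl fun a _ => ?_
    rw [hb, zsmul_eq_mul, map_mul, map_intCast, Algebra.smul_def]
    simp
  have hwK : ∀ i, (w i : K) = ∑ a, (c i a : ℚ) • b a := by
    intro i
    rw [← hcK, hc]
  have hdet : (Matrix.of fun i a => (c i a : ℚ)).det ≠ 0 := by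
    intro h0
    obtain ⟨v, hv0, hv⟩ := Matrix.exists_vecMul_eq_zero_iff.2 h0
    apply hv0
    have h1 : ∑ i, v i • (w i : K) = 0 := by
      simp_rw [hwK, Finset.smul_sum, smul_smul]
      rw [Finset.sum_comm]
      refine Finset.sum_eq_zero fun a _ => ?_
      rw [← Finset.sum_smul]
      have h2 := congrFun hv a
      simp only [Matrix.vecMul, dotProduct, Matrix.of_apply, Pi.zero_apply] at h2
      rw [h2, zero_smul]
    have h3 := Fintype.linearIndependent_iff.1 hli v h1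
    funext i
    exact h3 i
  have hqf : ∀ i, qf G (c i) = T2 (w i : K) := by
    intro i
    rw [hGq, hc]
  have hmink := mink n hn1 G hG c hdet (by
      intro i j hij
      change qf G (c i) ≤ qf G (c j)
      rw [hqf, hqf]
      exact hmono hij) (by
      intro z i hz
      rw [hqf, hGq] at hz
      obtain ⟨q, hq, hzq⟩ := hsp _ i hz
      refine ⟨q, hq, ?_⟩
      have h1 : ∑ a, (z a : ℚ) • b a = ∑ a, (∑ j, q j * (c j a : ℚ)) • b a := by
        rw [← hcK]
        rw [hzq]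
        simp_rw [hwK, Finset.smul_sum, smul_smul]
        rw [Finset.sum_comm]
        refine Finset.sum_congr rfl fun a _ => ?_
        rw [← Finset.sum_smul]
      intro a
      have h2 : ∑ a, ((z a : ℚ) - ∑ j, q j * (c j a : ℚ)) • b a = 0 := by
        simp_rw [sub_smul]
        rw [Finset.sum_sub_distrib, h1, sub_self]
      have h3 := Fintype.linearIndependent_iff.1 b.linearIndependent _ h2 a
      linarith)
  rw [hGd] at hmink
  simp_rw [hqf] at hmink
  have hgam0 : 0 < QTow.gam n := gam_pos n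
  have hgam := gam_le n hn1
  have hd0 : 0 ≤ |(discr K : ℝ)| := abs_nonneg _
  have hT0 : ∀ j, 0 ≤ T2 (w j : K) := by
    intro j
    unfold T2
    exact Finset.sum_nonneg (fun φ _ => by positivity)
  have hP0 : 0 ≤ ∏ j, T2 (w j : K) := Finset.prod_nonneg (fun j _ => hT0 j)
  have hn0 : (0 : ℝ) < n := by exact_mod_cast hn1
  refine ⟨w, fun i => Real.sqrt (T2 (w i : K)), hli, ?_, ?_, ?_, ?_⟩
  · intro i
    obtain ⟨φ⟩ : Nonempty (K →+* ℂ) := inferInstance
    have h1 : (w i : K) ≠ 0 := hli.ne_zero i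
    have h2 : φ (w i : K) ≠ 0 := (map_ne_zero φ).2 h1
    have h3 := shortP_le_T2 (w i : K) φ
    have h4 : 0 < ‖φ (w i : K)‖ := norm_pos_iff.2 h2
    exact Real.sqrt_pos.2 (lt_of_lt_of_le (by positivity) h3)
  · intro i
    have hp := prod_arg K n hn w hli hmono hsp i
    have hl0 : 0 ≤ Real.sqrt (T2 (w i : K)) := Real.sqrt_nonneg _
    have h1 : (Real.sqrt (T2 (w i : K)) ^ n) ^ 2 ≤ (QTow.gam n ^ n * |(discr K : ℝ)|) ^ 2 := by
      calc (Real.sqrt (T2 (w i : K)) ^ n) ^ 2 = (Real.sqrt (T2 (w i : K)) ^ 2) ^ n := by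
            rw [← pow_mul, ← pow_mul, mul_comm]
        _ = T2 (w i : K) ^ n := by rw [Real.sq_sqrt (hT0 i)]
        _ ≤ (∏ j, T2 (w j : K)) ^ 2 := hp
        _ ≤ (QTow.gam n ^ n * |(discr K : ℝ)|) ^ 2 := pow_le_pow_left₀ hP0 hmink 2
    have h2 : Real.sqrt (T2 (w i : K)) ^ n ≤ QTow.gam n ^ n * |(discr K : ℝ)| :=
      le_of_sq_le_sq h1 (by positivity)
    have h3 : QTow.gam n ^ n * |(discr K : ℝ)| ≤
        (2 * n * |(discr K : ℝ)| ^ ((1 : ℝ) / n)) ^ n := by
      rw [mul_pow]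
      refine mul_le_mul (pow_le_pow_left₀ hgam0.le hgam n) ?_ hd0 (by positivity)
      rw [← Real.rpow_natCast, ← Real.rpow_mul hd0, one_div, inv_mul_cancel₀ hn0.ne', Real.rpow_one]
    exact le_of_pow_le_pow_left₀ (by omega) (by positivity) (h2.trans h3)
  · intro i φ
    exact Real.le_sqrt_of_sq_le (shortP_le_T2 _ φ)
  · have h1 : (∏ i, Real.sqrt (T2 (w i : K))) ^ 2 = ∏ i, T2 (w i : K) := by
      rw [← Finset.prod_pow]
      exact Finset.prod_congr rfl fun i _ => Real.sq_sqrt (hT0 i)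
    have h2 : (1 : ℝ) ≤ (2 * (n : ℝ)) ^ n := by
      have h3 : (1 : ℝ) ≤ (n : ℝ) := by exact_mod_cast hn1
      exact one_le_pow₀ (by linarith)
    refine le_of_sq_le_sq ?_ (by positivity)
    rw [h1, mul_pow, Real.sq_sqrt hd0]
    refine hmink.trans (mul_le_mul_of_nonneg_right ?_ hd0)
    calc QTow.gam n ^ n ≤ (2 * (n : ℝ)) ^ n := pow_le_pow_left₀ hgam0.le hgam n
      _ ≤ ((2 * (n : ℝ)) ^ n) ^ 2 := by
          rw [sq]
          exact le_mul_of_one_le_left (by positivity) h2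

end NFW
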